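import Pool.Agent.W432.HK.Gen

set_option autoImplicit false

/-!
Rank two: the differences of the exponents and the sum of one exponent at every point.

A point of the torus is a vector `y` indexed by `Option X`: `y (some x)` is the difference of the two
exponents at the point `x`, and `y none` is the sum of the first exponents. The sum of all exponents is
`∑ x, y (some x) + 2 * y none`.
-/

open Finset Pool.Agent.W432.TC

namespace Pool.Agent.Run7.h700.R2

variable {X : Type*} [Fintype X]

/-- The sum of all exponents. -/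
def tr (y : Option X → ℝ) : ℝ := ∑ x, y (some x) + 2 * y none

/-- The `l¹`-distance inequality (weak form). -/
def Good (y : Option X → ℝ) : Prop :=
  ∀ (e : X → ℤ) (F : ℤ), tr y = F → Odd (∑ x, e x - F) → 1 ≤ ∑ x, |y (some x) - e x|

/-- The `l¹`-distance inequality (strict form). -/
def Strict (y : Option X → ℝ) : Prop :=
  ∀ (e : X → ℤ) (F : ℤ), tr y = F → Odd (∑ x, e x - F) → 1 < ∑ x, |y (some x) - e x|

lemma Strict.good {y : Option X → ℝ} (h : Strict y) : Good y := fun e F h1 h2 => (h e F h1 h2).le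

lemma tr_shift (y : Option X → ℝ) (z : Option X → ℤ) :
    tr (fun i => y i - z i) = tr y - ((∑ x, z (some x) + 2 * z none : ℤ) : ℝ) := by
  unfold tr
  rw [sum_sub_distrib]
  push_cast
  ring

lemma Good.shift {y : Option X → ℝ} (h : Good y) (z : Option X → ℤ) : Good (fun i => y i - z i) := by
  intro e F h1 h2
  rw [tr_shift] at h1
  have := h (fun x => e x + z (some x)) (F + (∑ x, z (some x) + 2 * z none)) (by
    push_cast at h1 ⊢; linarith) (by
    have e1 : ∑ x, (e x + z (some x)) - (F + (∑ x, z (some x) + 2 * z none)) =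
        ∑ x, e x - F - 2 * z none := by rw [sum_add_distrib]; ring
    rw [e1]
    exact h2.sub_even (even_two_mul _))
  refine this.trans_eq (sum_congr rfl fun x _ => ?_)
  push_cast
  congr 1
  ring

lemma Strict.shift {y : Option X → ℝ} (h : Strict y) (z : Option X → ℤ) :
    Strict (fun i => y i - z i) := by
  intro e F h1 h2
  rw [tr_shift] at h1
  have := h (fun x => e x + z (some x)) (F + (∑ x, z (some x) + 2 * z none)) (by
    push_cast at h1 ⊢; linarith) (by
    have e1 : ∑ x, (e x + z (some x)) - (F + (∑ x, z (some x) + 2 * z none)) =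
        ∑ x, e x - F - 2 * z none := by rw [sum_add_distrib]; ring
    rw [e1]
    exact h2.sub_even (even_two_mul _))
  refine this.trans_eq (sum_congr rfl fun x _ => ?_)
  push_cast
  congr 1
  ring

/-- The trace relation. -/
def tau : Option X → ℤ := fun i => i.elim 2 fun _ => 1

lemma tau_sum (y : Option X → ℝ) : ∑ i, ((tau i : ℤ) : ℝ) * y i = tr y := by
  rw [Fintype.sum_option]
  simp only [tau, tr, Option.elim]
  push_cast
  simp only [one_mul]
  ring

lemma tau_sum_rat (y : Option X → ℚ) :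
    ∑ i, ((tau i : ℤ) : ℚ) * y i = ∑ x, y (some x) + 2 * y none := by
  rw [Fintype.sum_option]
  simp only [tau, Option.elim]
  push_cast
  simp only [one_mul]
  ring

/-- All the conjugates of the rational point `x` satisfy `P`. -/
def AllConj (P : (Option X → ℝ) → Prop) (x : Option X → ℚ) : Prop :=
  ∀ N : ℕ, 0 < N → (∀ i, ∃ z : ℤ, (N : ℚ) * x i = z) → ∀ a : ℤ, IsCoprime a (N : ℤ) →
    P fun i => (a : ℝ) * x i

/-- The rational points with integral trace all whose conjugates satisfy `P`. -/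
def Pts (P : (Option X → ℝ) → Prop) : Set (Option X → ℚ) :=
  {x | (∃ F : ℤ, ∑ x', x (some x') + 2 * x none = F) ∧ AllConj P x}

lemma exists_commonDen {I : Type*} [Fintype I] (x : I → ℚ) :
    ∃ N : ℕ, 0 < N ∧ ∀ i, ∃ z : ℤ, (N : ℚ) * x i = z := by
  classical
  refine ⟨∏ i, (x i).den, prod_pos fun i _ => (x i).den_pos, fun i => ?_⟩
  refine ⟨(∏ j ∈ univ.erase i, (x j).den : ℕ) * (x i).num, ?_⟩
  rw [← mul_prod_erase univ (fun j => (x j).den) (mem_univ i)]
  push_cast
  have h1 : ((x i).den : ℚ) * x i = (x i).num := Rat.den_mul_eq_num (x i)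
  calc ((x i).den : ℚ) * (∏ j ∈ univ.erase i, ((x j).den : ℚ)) * x i
      = (∏ j ∈ univ.erase i, ((x j).den : ℚ)) * (((x i).den : ℚ) * x i) := by ring
    _ = _ := by rw [h1]

/-- The properties of the cosets which cover the points. -/
structure IsCos (P : (Option X → ℝ) → Prop) (L : AddSubgroup (Option X → ℤ)) (c : Option X → ℚ) :
    Prop where
  sat : ∀ (d : ℤ) (v : Option X → ℤ), d ≠ 0 → d • v ∈ L → v ∈ L
  tauMem : tau ∈ L
  trc : ∃ F : ℤ, ∑ x', c (some x') + 2 * c none = F
  near : ∀ y, InCoset L c y → ∀ δ : ℝ, 0 < δ → ∃ x : Option X → ℝ, P x ∧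
    (∀ v ∈ L, (∃ w : ℤ, ∑ i, (v i : ℝ) * y i = w) → ∃ w : ℤ, ∑ i, (v i : ℝ) * x i = w) ∧
    ∀ i, |x i - y i| < δ

theorem exists_cosets [DecidableEq X] (P : (Option X → ℝ) → Prop)
    (hP : ∀ y, P y → ∀ z : Option X → ℤ, P fun i => y i - z i) :
    ∃ 𝒟 : Finset (AddSubgroup (Option X → ℤ) × (Option X → ℚ)),
      (∀ C ∈ 𝒟, IsCos P C.1 C.2) ∧
      ∀ x ∈ Pts P, ∃ C ∈ 𝒟, InCoset C.1 C.2 (fun i => (x i : ℝ)) := by
  classical
  obtain ⟨𝒟, h𝒟, hcov⟩ := general_cosets (Pts P)
  refine ⟨𝒟, fun C hC => ?_, hcov⟩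
  obtain ⟨hsat, hrel, hmem, happ⟩ := h𝒟 C hC
  refine ⟨hsat, hrel tau fun x hx => ?_, hmem.1, fun y hy δ hδ => ?_⟩
  · obtain ⟨F, hF⟩ := hx.1
    exact ⟨F, by rw [tau_sum_rat, hF]⟩
  · obtain ⟨x, hx, hxc, hxa⟩ := happ 1 (fun _ => y) (fun _ => hy) δ hδ
    obtain ⟨N, hN, hNx⟩ := exists_commonDen x
    obtain ⟨a, ha, hz⟩ := hxa 0 N hN hNx
    choose z hz using hz
    refine ⟨fun i => (a : ℝ) * x i - z i, hP _ (hx.2 N hN hNx a ha) z, fun v hv hw => ?_,
      fun i => ?_⟩
    · obtain ⟨w, hw⟩ := hw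
      obtain ⟨w1, hw1⟩ := hy v hv
      obtain ⟨w2, hw2⟩ := hxc v hv
      refine ⟨a * (w2 + (w - w1)) - ∑ i, v i * z i, ?_⟩
      push_cast
      have e1 : ∑ i, (v i : ℝ) * y i - ∑ i, (v i : ℝ) * (C.2 i : ℝ) = w1 := by
        rw [← hw1, ← sum_sub_distrib]
        exact sum_congr rfl fun i _ => by ring
      have e2 : ∑ i, (v i : ℝ) * (x i : ℝ) - ∑ i, (v i : ℝ) * (C.2 i : ℝ) = w2 := by
        rw [← hw2, ← sum_sub_distrib]
        exact sum_congr rfl fun i _ => by ring
      have e3 : ∑ i, (v i : ℝ) * (x i : ℝ) = w2 + (w - w1) := by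
        rw [hw] at e1
        linarith
      rw [← e3, mul_sum, ← sum_sub_distrib]
      exact sum_congr rfl fun i _ => by ring
    · have := hz i
      rwa [show (a : ℝ) * x i - z i - y i = (a : ℝ) * x i - y i - z i by ring]

/-- Real points of the cosets satisfy the weak inequality. -/
lemma IsCos.good {P : (Option X → ℝ) → Prop} (hP : ∀ y, P y → Good y)
    {L : AddSubgroup (Option X → ℤ)} {c : Option X → ℚ} (hC : IsCos P L c)
    {y : Option X → ℝ} (hy : InCoset L c y) : Good y := by
  classical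
  intro e F h1 h2
  by_contra hlt
  push Not at hlt
  set s : ℝ := 1 - ∑ x, |y (some x) - e x| with hs
  have hs0 : 0 < s := by linarith
  set n : ℝ := ((Fintype.card X : ℕ) : ℝ) with hn
  have hn0 : 0 ≤ n := Nat.cast_nonneg _
  obtain ⟨x, hPx, hrel, hnear⟩ := hC.near y hy (min (s / (n + 1)) (1 / (n + 3))) (by positivity)
  -- the trace of `x`
  have htr : ∃ w : ℤ, tr x = w := by
    obtain ⟨w, hw⟩ := hrel tau hC.tauMem ⟨F, by rw [tau_sum, h1]⟩
    exact ⟨w, by rw [← tau_sum, hw]⟩
  obtain ⟨w, hw⟩ := htr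
  have hwF : w = F := by
    have h3 : |tr x - tr y| < 1 := by
      have e1 : tr x - tr y = ∑ x', (x (some x') - y (some x')) + 2 * (x none - y none) := by
        unfold tr; rw [sum_sub_distrib]; ring
      rw [e1]
      have b1 : |∑ x', (x (some x') - y (some x'))| ≤ ∑ _x' : X, (1 / (n + 3)) :=
        (abs_sum_le_sum_abs _ _).trans (sum_le_sum fun i _ => ((hnear _).trans_le (min_le_right _ _)).le)
      rw [sum_const, card_univ, nsmul_eq_mul] at b1
      have b2 : |x none - y none| < 1 / (n + 3) := (hnear _).trans_le (min_le_right _ _)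
      have b3 : |∑ x', (x (some x') - y (some x')) + 2 * (x none - y none)| ≤
          |∑ x', (x (some x') - y (some x'))| + 2 * |x none - y none| := by
        refine (abs_add_le _ _).trans ?_
        rw [abs_mul, abs_two]
      have b4 : n * (1 / (n + 3)) + 2 * (1 / (n + 3)) < 1 := by
        rw [← add_mul, mul_one_div, div_lt_one (by positivity)]
        linarith
      linarith
    rw [hw, h1] at h3
    have h4 : |((w - F : ℤ) : ℝ)| < 1 := by push_cast; exact h3
    have h5 : |w - F| < 1 := by exact_mod_cast h4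
    have := Int.abs_lt_one_iff.1 h5
    linarith
  have h3 := hP x hPx e F (by rw [hw, hwF]) h2
  have h4 : ∑ x', |x (some x') - e x'| ≤ ∑ x', (|y (some x') - e x'| + s / (n + 1)) := by
    refine sum_le_sum fun i _ => ?_
    have b1 : |x (some i) - y (some i)| < s / (n + 1) := (hnear _).trans_le (min_le_left _ _)
    have b2 := abs_add_le (x (some i) - y (some i)) (y (some i) - e i)
    rw [show x (some i) - y (some i) + (y (some i) - e i) = x (some i) - e i by ring] at b2
    linarith
  rw [sum_add_distrib, sum_const, card_univ, nsmul_eq_mul] at h4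
  have h5 : n * (s / (n + 1)) < s := by
    rw [mul_div_assoc', div_lt_iff₀ (by positivity)]
    nlinarith
  linarith

end Pool.Agent.Run7.h700.R2
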