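import Pool.Agent.Run7.h700.R2.Lat

set_option autoImplicit false

/-!
The cosets with at most two relations between the differences.
-/

open Finset Pool.Agent.W432.TC

namespace Pool.Agent.Run7.h700.R2

variable {X : Type*} [Fintype X] [DecidableEq X]

/-- The sign `1` on `K` and `-1` outside. -/
def sg (K : Finset X) (z : X) : ℤ := if z ∈ K then 1 else -1

/-- The relation for the sum of one exponent at every point. -/
def kap (K : Finset X) : Option X → ℤ := fun i => i.elim 1 fun z => if z ∈ K then 1 else 0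

/-- The relation for a sum of differences with signs. -/
def bl (σ : X → ℤ) (A : Finset X) : Option X → ℤ := fun i => i.elim 0 fun z => if z ∈ A then σ z else 0

/-- The value of the functional `a` at `e - c`. -/
def pr (a : X → ℚ) (c : Option X → ℚ) (e : X → ℤ) : ℚ := ∑ z, a z * (e z - c (some z))

omit [DecidableEq X] in
lemma pr_add (a : X → ℚ) (c : Option X → ℚ) (e h : X → ℤ) :
    pr a c (e + h) = pr a c e + ∑ z, a z * h z := by
  unfold pr
  rw [← sum_add_distrib]
  refine sum_congr rfl fun z _ => ?_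
  simp only [Pi.add_apply]
  push_cast
  ring

lemma lin_single (a : X → ℚ) (x : X) (n : ℤ) : ∑ z, a z * ((Pi.single x n : X → ℤ) z : ℚ) = a x * n := by
  rw [sum_eq_single x]
  · rw [Pi.single_eq_same]
  · intro z _ hz
    rw [Pi.single_eq_of_ne hz]
    simp
  · intro h; exact absurd (mem_univ x) h

lemma pr_single (a : X → ℚ) (c : Option X → ℚ) (e : X → ℤ) (x : X) (n : ℤ) :
    pr a c (e + Pi.single x n) = pr a c e + a x * n := by
  rw [pr_add, lin_single]

lemma sum_single_add (e : X → ℤ) (x : X) (n : ℤ) :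
    ∑ z, (e + (Pi.single x n : X → ℤ)) z = ∑ z, e z + n := by
  simp only [Pi.add_apply, sum_add_distrib, Finset.sum_pi_single', mem_univ, if_true]

variable {P : (Option X → ℝ) → Prop} {L : AddSubgroup (Option X → ℤ)} {c : Option X → ℚ} {F : ℤ}

/-- A functional whose values at the odd points are odd. -/
lemma sum_of (hC : IsCos P L c) (hF : ∑ x', c (some x') + 2 * c none = F) {f : X → ℚ}
    (hf : f ∈ W L) {x : X} (hfx : f x = 1) (hf2 : ∀ z, |f z| ≤ 2)
    (hodd : ∀ e : X → ℤ, Odd (∑ z, e z - F) → ∃ k : ℤ, pr f c e = 2 * k + 1) :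
    ∃ K : Finset X, (∀ z, f z = sg K z) ∧ kap K ∈ L ∧
      ∃ k : ℤ, c none + ∑ z ∈ K, c (some z) = k := by
  have hsign : ∀ z, f z = 1 ∨ f z = -1 := by
    intro z
    obtain ⟨k, hk⟩ := hodd (0 + Pi.single x (F + 1)) (by
      rw [sum_single_add]; simp)
    obtain ⟨l, hl⟩ := hodd (0 + Pi.single x (F + 1) + Pi.single z 1 + Pi.single x (-1)) (by
      rw [sum_single_add, sum_single_add, sum_single_add]; simp)
    rw [pr_single, pr_single, hk, hfx] at hl
    push_cast at hl
    have h1 : f z = ((2 * (l - k) + 1 : ℤ) : ℚ) := by push_cast; linarith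
    have h2 := hf2 z
    rw [h1] at h2
    have h3 : |2 * (l - k) + 1| ≤ 2 := by exact_mod_cast h2
    rw [abs_le] at h3
    have h4 : l - k = 0 ∨ l - k = -1 := by omega
    rcases h4 with h4 | h4
    · left; rw [h1, h4]; norm_num
    · right; rw [h1, h4]; norm_num
  set K : Finset X := univ.filter fun z => f z = 1 with hK
  have hfK : ∀ z, f z = sg K z := by
    intro z
    by_cases h : f z = 1
    · have : z ∈ K := mem_filter.2 ⟨mem_univ _, h⟩
      rw [sg, if_pos this, h]; norm_num
    · have h' : z ∉ K := fun hz => h (mem_filter.1 hz).2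
      rw [sg, if_neg h', (hsign z).resolve_left h]; norm_num
  refine ⟨K, hfK, hC.mem ?_, ?_⟩
  · have : rho (kap K) = (1 / 2 : ℚ) • f := by
      funext z
      simp only [rho, kap, Option.elim, Pi.smul_apply, smul_eq_mul, hfK z, sg]
      split_ifs <;> norm_num
    rw [this]
    exact (W L).smul_mem _ hf
  · obtain ⟨k, hk⟩ := hodd (0 + Pi.single x (F + 1)) (by rw [sum_single_add]; simp)
    rw [pr_single, hfx] at hk
    refine ⟨F - k, ?_⟩
    have h1 : pr f c 0 = -∑ z, f z * c (some z) := by
      unfold pr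
      rw [← sum_neg_distrib]
      refine sum_congr rfl fun z _ => ?_
      simp
    have h2 : ∑ z, f z * c (some z) = 2 * ∑ z ∈ K, c (some z) - ∑ z, c (some z) := by
      have h3 : ∑ z ∈ K, c (some z) = ∑ z, if z ∈ K then c (some z) else 0 := by
        rw [← sum_filter]; simp
      rw [h3, mul_sum, ← sum_sub_distrib]
      refine sum_congr rfl fun z _ => ?_
      rw [hfK z, sg]
      split_ifs <;> push_cast <;> ring
    rw [h1, h2] at hk
    push_cast at hk ⊢
    linarith

/-- The structure of two halves. -/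
def Halves (L : AddSubgroup (Option X → ℤ)) (c : Option X → ℚ) : Prop :=
  ∃ (σ : X → ℤ) (A B : Finset X), (∀ z, σ z = 1 ∨ σ z = -1) ∧ A.Nonempty ∧ B.Nonempty ∧
    Disjoint A B ∧ A ∪ B ≠ univ ∧ bl σ A ∈ L ∧ bl σ B ∈ L ∧
    (∃ k : ℤ, ∑ z ∈ A, (σ z : ℚ) * c (some z) = k + 1 / 2) ∧
    ∃ k : ℤ, ∑ z ∈ B, (σ z : ℚ) * c (some z) = k + 1 / 2

/-- The structure of one sum of exponents and, if there are two relations, a frame. -/
def Framed (L : AddSubgroup (Option X → ℤ)) (c : Option X → ℚ) : Prop :=
  ∃ (x y : X) (a b : X → ℚ) (K : Finset X), a ∈ W L ∧ a x = 1 ∧ a y = 0 ∧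
    (∀ z, |a z| ≤ 1) ∧ (∀ z, |b z| ≤ 1) ∧ (∀ z, a z + b z = sg K z) ∧
    (∀ g ∈ W L, ∃ p q : ℚ, ∀ z, g z = p * a z + q * b z) ∧ kap K ∈ L ∧
    ∃ k : ℤ, c none + ∑ z ∈ K, c (some z) = k

omit [DecidableEq X] in
lemma even_num {q : ℚ} {k l : ℤ} (h : q = 2 * k + 1 + (2 * l + 1)) : ∃ j : ℤ, q = 2 * j :=
  ⟨k + l + 1, by rw [h]; push_cast; ring⟩

theorem class_two [Nonempty X] (hC : IsCos P L c) (hP : ∀ y, P y → Good y)
    (hF : ∑ x', c (some x') + 2 * c none = F) (hW : Module.finrank ℚ (W L) = 2) :
    Framed L c ∨ Halves L c := by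
  obtain ⟨x, y, a, b, hxy, haW, hbW, hax, hay, hbx, hby, ha1, hb1, hspan⟩ := frame_two hW
  -- the basic inequality
  have key : ∀ (e : X → ℤ) (d : X → ℚ), Odd (∑ z, e z - F) →
      ∑ z, a z * (d z - c (some z)) = 0 → ∑ z, b z * (d z - c (some z)) = 0 →
      1 ≤ ∑ z, |d z - e z| := by
    intro e d he h1 h2
    refine hC.base_rat hP hF (fun g hg => ?_) he
    calc ∑ z, g z * (d z - c (some z)) = g x * ∑ z, a z * (d z - c (some z)) +
          g y * ∑ z, b z * (d z - c (some z)) := by
            rw [mul_sum, mul_sum, ← sum_add_distrib]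
            refine sum_congr rfl fun z _ => ?_
            rw [hspan g hg z]; ring
      _ = 0 := by rw [h1, h2]; ring
  have star : ∀ e : X → ℤ, Odd (∑ z, e z - F) → 1 ≤ |pr a c e| + |pr b c e| := by
    intro e he
    have h := key e (fun z => e z - (if z = x then pr a c e else 0) - (if z = y then pr b c e else 0))
      he (by
        have h1 : ∀ z, a z * (e z - (if z = x then pr a c e else 0) -
            (if z = y then pr b c e else 0) - c (some z)) = a z * (e z - c (some z)) -
            (if z = x then a z * pr a c e else 0) - (if z = y then a z * pr b c e else 0) := by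
          intro z; split_ifs <;> ring
        simp only [h1, sum_sub_distrib, sum_ite_eq', mem_univ, if_true, hax, hay]
        unfold pr
        ring) (by
        have h1 : ∀ z, b z * (e z - (if z = x then pr a c e else 0) -
            (if z = y then pr b c e else 0) - c (some z)) = b z * (e z - c (some z)) -
            (if z = x then b z * pr a c e else 0) - (if z = y then b z * pr b c e else 0) := by
          intro z; split_ifs <;> ring
        simp only [h1, sum_sub_distrib, sum_ite_eq', mem_univ, if_true, hbx, hby]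
        unfold pr
        ring)
    refine h.trans ?_
    have h2 : ∀ z ∈ (univ : Finset X), |(e z : ℚ) - (if z = x then pr a c e else 0) -
        (if z = y then pr b c e else 0) - e z| ≤
        (if z = x then |pr a c e| else 0) + (if z = y then |pr b c e| else 0) := by
      intro z _
      by_cases h3 : z = x
      · rw [if_pos h3, if_pos h3, if_neg (fun h4 => hxy (h3.symm.trans h4)), if_neg (fun h4 => hxy (h3.symm.trans h4)),
          show (e z : ℚ) - pr a c e - 0 - e z = -pr a c e by ring, abs_neg, add_zero]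
      · by_cases h4 : z = y
        · rw [if_neg h3, if_neg h3, if_pos h4, if_pos h4,
            show (e z : ℚ) - 0 - pr b c e - e z = -pr b c e by ring, abs_neg, zero_add]
        · rw [if_neg h3, if_neg h3, if_neg h4, if_neg h4]
          simp
    refine (sum_le_sum h2).trans_eq ?_
    rw [sum_add_distrib, sum_ite_eq', sum_ite_eq', if_pos (mem_univ _), if_pos (mem_univ _)]
  have dich : ∀ e : X → ℤ, Odd (∑ z, e z - F) →
      (∃ k : ℤ, pr a c e + pr b c e = 2 * k + 1) ∨ ∃ k : ℤ, pr a c e - pr b c e = 2 * k + 1 := by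
    intro e he
    refine odd_of_far fun n m hnm => ?_
    have h := star (e + Pi.single x n + Pi.single y m) (by
      rw [sum_single_add, sum_single_add]
      have : ∑ z, e z + n + m - F = ∑ z, e z - F + (n + m) := by ring
      rw [this]
      exact he.add_even hnm)
    rwa [pr_single, pr_single, pr_single, pr_single, hax, hay, hbx, hby, one_mul, zero_mul, zero_mul,
      one_mul, add_zero, add_zero] at h
  -- the three cases
  by_cases hcP : ∀ e : X → ℤ, Odd (∑ z, e z - F) → ∃ k : ℤ, pr a c e + pr b c e = 2 * k + 1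
  · left
    obtain ⟨K, hK1, hK2, hK3⟩ := sum_of hC hF (f := a + b) ((W L).add_mem haW hbW) (x := x)
      (by simp [hax, hbx]) (fun z => by
        have := abs_add_le (a z) (b z)
        have h1 := ha1 z
        have h2 := hb1 z
        simp only [Pi.add_apply]
        linarith) (fun e he => by
        obtain ⟨k, hk⟩ := hcP e he
        refine ⟨k, ?_⟩
        rw [← hk]
        unfold pr
        rw [← sum_add_distrib]
        exact sum_congr rfl fun z _ => by simp only [Pi.add_apply]; ring)
    exact ⟨x, y, a, b, K, haW, hax, hay, ha1, hb1, hK1, fun g hg => ⟨g x, g y, hspan g hg⟩, hK2, hK3⟩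
  by_cases hcM : ∀ e : X → ℤ, Odd (∑ z, e z - F) → ∃ k : ℤ, pr a c e - pr b c e = 2 * k + 1
  · left
    obtain ⟨K, hK1, hK2, hK3⟩ := sum_of hC hF (f := a - b) ((W L).sub_mem haW hbW) (x := x)
      (by simp [hax, hbx]) (fun z => by
        have := abs_sub (a z) (b z)
        have h1 := ha1 z
        have h2 := hb1 z
        simp only [Pi.sub_apply]
        linarith) (fun e he => by
        obtain ⟨k, hk⟩ := hcM e he
        refine ⟨k, ?_⟩
        rw [← hk]
        unfold pr
        rw [← sum_sub_distrib]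
        exact sum_congr rfl fun z _ => by simp only [Pi.sub_apply]; ring)
    refine ⟨x, y, a, fun z => -b z, K, haW, hax, hay, ha1, fun z => by rw [abs_neg]; exact hb1 z,
      fun z => ?_, fun g hg => ⟨g x, -g y, fun z => ?_⟩, hK2, hK3⟩
    · rw [← hK1 z]; simp only [Pi.sub_apply]; ring
    · rw [hspan g hg z]; ring
  right
  push Not at hcP hcM
  obtain ⟨e1, he1, hn1⟩ := hcP
  obtain ⟨e2, he2, hn2⟩ := hcM
  have hM1 := (dich e1 he1).resolve_left (fun ⟨k, hk⟩ => hn1 k hk)
  have hP2 := (dich e2 he2).resolve_right (fun ⟨k, hk⟩ => hn2 k hk)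
  set la : (X → ℤ) → ℚ := fun h => ∑ z, a z * (h z : ℚ) with hla
  set lb : (X → ℤ) → ℚ := fun h => ∑ z, b z * (h z : ℚ) with hlb
  have pa_add : ∀ e h : X → ℤ, pr a c (e + h) = pr a c e + la h := fun e h => pr_add a c e h
  have pb_add : ∀ e h : X → ℤ, pr b c (e + h) = pr b c e + lb h := fun e h => pr_add b c e h
  have hodd : ∀ {e h : X → ℤ}, Odd (∑ z, e z - F) → Even (∑ z, h z) → Odd (∑ z, (e + h) z - F) := by
    intro e h h1 h2
    have : ∑ z, (e + h) z - F = ∑ z, e z - F + ∑ z, h z := by
      simp only [Pi.add_apply, sum_add_distrib]; ring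
    rw [this]
    exact h1.add_even h2
  have h_ii : ∀ h : X → ℤ, Even (∑ z, h z) → (∃ k : ℤ, la h + lb h = 2 * k) →
      ∃ k : ℤ, la h - lb h = 2 * k := by
    rintro h hh ⟨k, hk⟩
    rcases dich (e1 + h) (hodd he1 hh) with ⟨l, hl⟩ | ⟨l, hl⟩
    · exfalso
      rw [pa_add, pb_add] at hl
      exact hn1 (l - k) (by push_cast; linarith)
    · obtain ⟨j, hj⟩ := hM1
      rw [pa_add, pb_add] at hl
      exact ⟨l - j, by push_cast; linarith⟩
  have h_iii : ∀ h : X → ℤ, Even (∑ z, h z) → (∃ k : ℤ, la h - lb h = 2 * k) →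
      ∃ k : ℤ, la h + lb h = 2 * k := by
    rintro h hh ⟨k, hk⟩
    rcases dich (e2 + h) (hodd he2 hh) with ⟨l, hl⟩ | ⟨l, hl⟩
    · obtain ⟨j, hj⟩ := hP2
      rw [pa_add, pb_add] at hl
      exact ⟨l - j, by push_cast; linarith⟩
    · exfalso
      rw [pa_add, pb_add] at hl
      exact hn2 (l - k) (by push_cast; linarith)
  have h_iv : ∀ h : X → ℤ, Even (∑ z, h z) → (¬ ∃ k : ℤ, la h + lb h = 2 * k) →
      ∃ k : ℤ, pr a c (e1 + h) + pr b c (e1 + h) = 2 * k + 1 := by
    intro h hh hno
    rcases dich (e1 + h) (hodd he1 hh) with h1 | ⟨l, hl⟩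
    · exact h1
    · exfalso
      obtain ⟨j, hj⟩ := hM1
      rw [pa_add, pb_add] at hl
      exact hno (h_iii h hh ⟨l - j, by push_cast; linarith⟩)
  -- twice an even vector
  have h_v : ∀ h : X → ℤ, Even (∑ z, h z) → ∃ k : ℤ, la h + lb h = k := by
    intro h hh
    by_cases h1 : ∃ k : ℤ, la h + lb h = 2 * k
    · obtain ⟨k, hk⟩ := h1
      exact ⟨2 * k, by rw [hk]; push_cast; ring⟩
    · obtain ⟨k, hk⟩ := h_iv h hh h1
      have hneg : la (-h) + lb (-h) = -(la h + lb h) := by
        simp only [hla, hlb, Pi.neg_apply]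
        push_cast
        simp only [mul_neg, sum_neg_distrib]
        ring
      obtain ⟨l, hl⟩ := h_iv (-h) (by
        simp only [Pi.neg_apply, sum_neg_distrib]; exact hh.neg) (by
        rintro ⟨j, hj⟩
        rw [hneg] at hj
        exact h1 ⟨-j, by push_cast; linarith⟩)
      rw [pa_add, pb_add] at hk hl
      exact ⟨k - l, by push_cast; linarith⟩
  -- integrality
  have hint : ∀ z, ∃ i j : ℤ, a z = i ∧ b z = j := by
    intro z
    set h : X → ℤ := 0 + Pi.single z 1 + Pi.single x (-1) with hh
    have hs : ∑ z', h z' = 0 := by rw [hh, sum_single_add, sum_single_add]; simp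
    have hla' : la h = a z - 1 := by
      have : la h = ∑ z', a z' * (h z' : ℚ) := rfl
      have e1 : pr a (fun _ => 0) h = la h := by simp [pr, hla]
      rw [← e1, hh, pr_single, pr_single, hax]
      simp [pr]
      ring
    have hlb' : lb h = b z := by
      have e1 : pr b (fun _ => 0) h = lb h := by simp [pr, hlb]
      rw [← e1, hh, pr_single, pr_single, hbx]
      simp [pr]
    have hev : Even (∑ z', h z') := by rw [hs]; exact Even.zero
    obtain ⟨k, hk⟩ := h_v h hev
    rw [hla', hlb'] at hk
    by_cases h1 : ∃ k : ℤ, la h + lb h = 2 * k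
    · obtain ⟨p, hp⟩ := h1
      obtain ⟨q, hq⟩ := h_ii h hev ⟨p, hp⟩
      rw [hla', hlb'] at hp hq
      exact ⟨p + q + 1, p - q, by push_cast; linarith, by push_cast; linarith⟩
    · -- both are odd
      have h2 : ¬ ∃ k : ℤ, la h - lb h = 2 * k := fun h3 => h1 (h_iii h hev h3)
      obtain ⟨p, hp⟩ := h_iv h hev h1
      obtain ⟨j, hj⟩ := h_v h hev
      -- `la h + lb h` is odd
      have hjodd : ¬ Even j := by
        rintro ⟨t, ht⟩
        exact h1 ⟨t, by rw [hj, ht]; push_cast; ring⟩
      rw [Int.not_even_iff_odd] at hjodd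
      obtain ⟨t, ht⟩ := hjodd
      -- `la h - lb h`: use `e2`
      have h3 : ∃ k : ℤ, pr a c (e2 + h) - pr b c (e2 + h) = 2 * k + 1 := by
        rcases dich (e2 + h) (hodd he2 hev) with ⟨l, hl⟩ | h4
        · exfalso
          obtain ⟨j', hj'⟩ := hP2
          rw [pa_add, pb_add] at hl
          exact h1 ⟨l - j', by push_cast; linarith⟩
        · exact h4
      obtain ⟨s, hs'⟩ := h3
      have hneg : ∀ g : (X → ℚ), ∑ z', g z' * (((-h) z' : ℤ) : ℚ) = -∑ z', g z' * (h z' : ℚ) := by
        intro g
        rw [← sum_neg_distrib]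
        exact sum_congr rfl fun z' _ => by simp
      have h5 : ∃ k : ℤ, pr a c (e2 + -h) - pr b c (e2 + -h) = 2 * k + 1 := by
        rcases dich (e2 + -h) (hodd he2 (by
          simp only [Pi.neg_apply, sum_neg_distrib]; exact hev.neg)) with ⟨l, hl⟩ | h4
        · exfalso
          obtain ⟨j', hj'⟩ := hP2
          rw [pa_add, pb_add] at hl
          have e1 : la (-h) = -la h := hneg a
          have e2' : lb (-h) = -lb h := hneg b
          rw [e1, e2'] at hl
          exact h1 ⟨j' - l, by push_cast; linarith⟩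
        · exact h4
      obtain ⟨s', hs''⟩ := h5
      rw [pa_add, pb_add] at hs' hs''
      have e1 : la (-h) = -la h := hneg a
      have e2' : lb (-h) = -lb h := hneg b
      rw [e1, e2'] at hs''
      have h6 : la h - lb h = ((s - s' : ℤ) : ℚ) := by push_cast; linarith
      have h7 : ¬ Even (s - s') := by
        rintro ⟨t', ht'⟩
        exact h2 ⟨t', by rw [h6, ht']; push_cast; ring⟩
      rw [Int.not_even_iff_odd] at h7
      obtain ⟨t', ht'⟩ := h7
      rw [ht', hla', hlb'] at h6
      rw [ht, hla', hlb'] at hj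
      push_cast at h6 hj
      exact ⟨t + t' + 2, t - t', by push_cast; linarith, by push_cast; linarith⟩
  choose a' b' ha' hb' using hint
  have ha'1 : ∀ z, |a' z| ≤ 1 := by
    intro z
    have := ha1 z
    rw [ha' z] at this
    exact_mod_cast this
  have hb'1 : ∀ z, |b' z| ≤ 1 := by
    intro z
    have := hb1 z
    rw [hb' z] at this
    exact_mod_cast this
  -- the difference `e2 - e1`
  set v : X → ℤ := e2 - e1 with hv
  have hve : Even (∑ z, v z) := by
    have : ∑ z, v z = (∑ z, e2 z - F) - (∑ z, e1 z - F) := by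
      simp only [hv, Pi.sub_apply, sum_sub_distrib]; ring
    rw [this]
    exact he2.sub_odd he1
  have he12 : e2 = e1 + v := by rw [hv]; abel
  have hvno : ¬ ∃ k : ℤ, la v + lb v = 2 * k := by
    rintro ⟨k, hk⟩
    obtain ⟨j, hj⟩ := hP2
    rw [he12, pa_add, pb_add] at hj
    exact hn1 (j - k) (by push_cast; linarith)
  have hvint : la v + lb v = ((∑ z, (a' z + b' z) * v z : ℤ) : ℚ) := by
    simp only [hla, hlb]
    rw [← sum_add_distrib]
    push_cast
    refine sum_congr rfl fun z _ => ?_
    rw [ha' z, hb' z]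
    ring
  have hvodd : Odd (∑ z, (a' z + b' z) * v z) := by
    rw [← Int.not_even_iff_odd]
    rintro ⟨t, ht⟩
    exact hvno ⟨t, by rw [hvint, ht]; push_cast; ring⟩
  obtain ⟨t, ht⟩ := hvodd
  rw [ht] at hvint
  push_cast at hvint
  obtain ⟨k1, hk1⟩ := hM1
  obtain ⟨k2, hk2⟩ := hP2
  rw [he12, pa_add, pb_add] at hk2
  -- half-integral values
  have hpa1 : pr a c e1 = ((k1 + k2 - t : ℤ) : ℚ) + 1 / 2 := by push_cast; linarith
  have hpb1 : pr b c e1 = ((k2 - t - k1 - 1 : ℤ) : ℚ) + 1 / 2 := by push_cast; linarith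
  -- no vertex `(±1, ±1)`
  have hnov : ∀ z, a' z = 0 ∨ b' z = 0 := by
    intro z
    by_contra hcon
    push Not at hcon
    obtain ⟨h1, h2⟩ := hcon
    have ha'2 : a' z = 1 ∨ a' z = -1 := by
      have := abs_le.1 (ha'1 z); omega
    have hb'2 : b' z = 1 ∨ b' z = -1 := by
      have := abs_le.1 (hb'1 z); omega
    obtain ⟨n, hn⟩ : ∃ n : ℤ, (a' z : ℚ) / 2 = pr a c e1 + n := by
      rcases ha'2 with h | h
      · exact ⟨-(k1 + k2 - t), by rw [h, hpa1]; push_cast; ring⟩
      · exact ⟨-(k1 + k2 - t) - 1, by rw [h, hpa1]; push_cast; ring⟩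
    obtain ⟨m, hm⟩ : ∃ m : ℤ, (b' z : ℚ) / 2 = pr b c e1 + m := by
      rcases hb'2 with h | h
      · exact ⟨-(k2 - t - k1 - 1), by rw [h, hpb1]; push_cast; ring⟩
      · exact ⟨-(k2 - t - k1 - 1) - 1, by rw [h, hpb1]; push_cast; ring⟩
    have hex : ∃ e : X → ℤ, Odd (∑ z', e z' - F) ∧ pr a c e = (a' z : ℚ) / 2 ∧
        pr b c e = (b' z : ℚ) / 2 := by
      by_cases hnm : Even (n + m)
      · refine ⟨e1 + Pi.single x n + Pi.single y m, ?_, ?_, ?_⟩
        · rw [sum_single_add, sum_single_add]
          have : ∑ z, e1 z + n + m - F = ∑ z, e1 z - F + (n + m) := by ring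
          rw [this]
          exact he1.add_even hnm
        · rw [pr_single, pr_single, hax, hay, hn]; ring
        · rw [pr_single, pr_single, hbx, hby, hm]; ring
      · rw [Int.not_even_iff_odd] at hnm
        have hlav : ∃ i : ℤ, la v = i := by
          refine ⟨∑ z', a' z' * v z', ?_⟩
          simp only [hla]
          push_cast
          exact sum_congr rfl fun z' _ => by rw [ha' z']
        have hlbv : ∃ i : ℤ, lb v = i := by
          refine ⟨∑ z', b' z' * v z', ?_⟩
          simp only [hlb]
          push_cast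
          exact sum_congr rfl fun z' _ => by rw [hb' z']
        obtain ⟨i, hi⟩ := hlav
        obtain ⟨j, hj⟩ := hlbv
        have hij : Odd (i + j) := by
          refine ⟨t, ?_⟩
          rw [hi, hj] at hvint
          have h6 : ((i + j : ℤ) : ℚ) = ((2 * t + 1 : ℤ) : ℚ) := by push_cast; linarith
          exact_mod_cast h6
        refine ⟨e2 + Pi.single x (n - i) + Pi.single y (m - j), ?_, ?_, ?_⟩
        · rw [sum_single_add, sum_single_add]
          have : ∑ z, e2 z + (n - i) + (m - j) - F = ∑ z, e2 z - F + ((n + m) - (i + j)) := by ring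
          rw [this]
          exact he2.add_even (hnm.sub_odd hij)
        · rw [pr_single, pr_single, hax, hay, hn, he12, pa_add, hi]; push_cast; ring
        · rw [pr_single, pr_single, hbx, hby, hm, he12, pb_add, hj]; push_cast; ring
    obtain ⟨e, he, hea, heb⟩ := hex
    have h := key e (fun z' => e z' - (if z' = z then 1 / 2 else 0)) he (by
      have h1 : ∀ z', a z' * (e z' - (if z' = z then (1 : ℚ) / 2 else 0) - c (some z')) =
          a z' * (e z' - c (some z')) - (if z' = z then a z' * (1 / 2) else 0) := by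
        intro z'; split_ifs <;> ring
      simp only [h1, sum_sub_distrib, sum_ite_eq', mem_univ, if_true]
      have h2 : ∑ z', a z' * ((e z' : ℚ) - c (some z')) = pr a c e := rfl
      rw [h2, hea, ha' z]
      ring) (by
      have h1 : ∀ z', b z' * (e z' - (if z' = z then (1 : ℚ) / 2 else 0) - c (some z')) =
          b z' * (e z' - c (some z')) - (if z' = z then b z' * (1 / 2) else 0) := by
        intro z'; split_ifs <;> ring
      simp only [h1, sum_sub_distrib, sum_ite_eq', mem_univ, if_true]
      have h2 : ∑ z', b z' * ((e z' : ℚ) - c (some z')) = pr b c e := rfl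
      rw [h2, heb, hb' z]
      ring)
    have h3 : ∑ z', |(e z' : ℚ) - (if z' = z then 1 / 2 else 0) - e z'| = 1 / 2 := by
      rw [sum_eq_single z]
      · rw [if_pos rfl, show (e z : ℚ) - 1 / 2 - e z = -(1 / 2) by ring, abs_neg]
        norm_num
      · intro z' _ hz'
        rw [if_neg hz']
        simp
      · intro h; exact absurd (mem_univ z) h
    rw [h3] at h
    norm_num at h
  -- a point outside of the two blocks
  have hout : ∃ z, a' z = 0 ∧ b' z = 0 := by
    by_contra hcon
    push Not at hcon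
    have h1 : ∀ z, Odd (a' z + b' z) := by
      intro z
      have h2 := abs_le.1 (ha'1 z)
      have h3 := abs_le.1 (hb'1 z)
      rcases hnov z with h4 | h4
      · have h5 := hcon z h4
        rw [h4, zero_add]
        have : b' z = 1 ∨ b' z = -1 := by omega
        rcases this with h | h <;> rw [h] <;> decide
      · have h5 : a' z ≠ 0 := fun h6 => hcon z h6 h4
        rw [h4, add_zero]
        have : a' z = 1 ∨ a' z = -1 := by omega
        rcases this with h | h <;> rw [h] <;> decide
    have h2 : Even (∑ z, (a' z + b' z) * v z) := by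
      have h3 : ∑ z, (a' z + b' z) * v z = ∑ z, (a' z + b' z - 1) * v z + ∑ z, v z := by
        rw [← sum_add_distrib]
        exact sum_congr rfl fun z _ => by ring
      rw [h3]
      refine Even.add (Finset.even_sum _ fun z _ => ?_) hve
      exact ((h1 z).sub_odd odd_one).mul_right _
    rw [ht] at h2
    exact (Int.not_even_iff_odd.2 ⟨t, rfl⟩) h2
  obtain ⟨z₀, hz1, hz2⟩ := hout
  have hax' : a' x = 1 := by have := ha' x; rw [hax] at this; exact_mod_cast this.symm
  have hby' : b' y = 1 := by have := hb' y; rw [hby] at this; exact_mod_cast this.symm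
  refine ⟨fun z => if a' z ≠ 0 then a' z else if b' z ≠ 0 then b' z else 1,
    univ.filter fun z => a' z ≠ 0, univ.filter fun z => b' z ≠ 0, fun z => ?_, ⟨x, ?_⟩, ⟨y, ?_⟩,
    ?_, ?_, hC.mem ?_, hC.mem ?_, ?_, ?_⟩
  · have h2 := abs_le.1 (ha'1 z)
    have h3 := abs_le.1 (hb'1 z)
    dsimp only
    split_ifs <;> omega
  · rw [mem_filter, hax']; exact ⟨mem_univ _, one_ne_zero⟩
  · rw [mem_filter, hby']; exact ⟨mem_univ _, one_ne_zero⟩
  · rw [disjoint_left]
    intro z h1 h2
    rw [mem_filter] at h1 h2
    exact (hnov z).elim h1.2 h2.2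
  · intro h
    have : z₀ ∈ (univ.filter fun z => a' z ≠ 0) ∪ (univ.filter fun z => b' z ≠ 0) := by
      rw [h]; exact mem_univ _
    rw [mem_union, mem_filter, mem_filter] at this
    rcases this with h1 | h1
    · exact h1.2 hz1
    · exact h1.2 hz2
  · have : rho (bl (fun z => if a' z ≠ 0 then a' z else if b' z ≠ 0 then b' z else 1)
        (univ.filter fun z => a' z ≠ 0)) = a := by
      funext z
      simp only [rho, bl, Option.elim, mem_filter, mem_univ, true_and]
      rw [ha' z]
      by_cases h : a' z = 0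
      · simp [h]
      · simp [h]
    rw [this]; exact haW
  · have : rho (bl (fun z => if a' z ≠ 0 then a' z else if b' z ≠ 0 then b' z else 1)
        (univ.filter fun z => b' z ≠ 0)) = b := by
      funext z
      simp only [rho, bl, Option.elim, mem_filter, mem_univ, true_and]
      rw [hb' z]
      by_cases h : b' z = 0
      · simp [h]
      · have h' := (hnov z).resolve_right h
        simp [h, h']
    rw [this]; exact hbW
  · refine ⟨∑ z, a' z * e1 z - (k1 + k2 - t) - 1, ?_⟩
    have h1 : pr a c e1 = ∑ z, a z * (e1 z : ℚ) - ∑ z, a z * c (some z) := by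
      unfold pr
      rw [← sum_sub_distrib]
      exact sum_congr rfl fun z _ => by ring
    have h2 : ∑ z ∈ univ.filter (fun z => a' z ≠ 0),
        ((if a' z ≠ 0 then a' z else if b' z ≠ 0 then b' z else 1 : ℤ) : ℚ) * c (some z) =
        ∑ z, a z * c (some z) := by
      rw [sum_filter]
      refine sum_congr rfl fun z _ => ?_
      rw [ha' z]
      by_cases h : a' z = 0
      · simp [h]
      · simp [h]
    have h3 : ∑ z, a z * (e1 z : ℚ) = ((∑ z, a' z * e1 z : ℤ) : ℚ) := by
      push_cast
      exact sum_congr rfl fun z _ => by rw [ha' z]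
    rw [h2]
    rw [hpa1, h3] at h1
    push_cast at h1 ⊢
    linarith
  · refine ⟨∑ z, b' z * e1 z - (k2 - t - k1 - 1) - 1, ?_⟩
    have h1 : pr b c e1 = ∑ z, b z * (e1 z : ℚ) - ∑ z, b z * c (some z) := by
      unfold pr
      rw [← sum_sub_distrib]
      exact sum_congr rfl fun z _ => by ring
    have h2 : ∑ z ∈ univ.filter (fun z => b' z ≠ 0),
        ((if a' z ≠ 0 then a' z else if b' z ≠ 0 then b' z else 1 : ℤ) : ℚ) * c (some z) =
        ∑ z, b z * c (some z) := by
      rw [sum_filter]
      refine sum_congr rfl fun z _ => ?_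
      rw [hb' z]
      by_cases h : b' z = 0
      · simp [h]
      · have h' := (hnov z).resolve_right h
        simp [h, h']
    have h3 : ∑ z, b z * (e1 z : ℚ) = ((∑ z, b' z * e1 z : ℤ) : ℚ) := by
      push_cast
      exact sum_congr rfl fun z _ => by rw [hb' z]
    rw [h2]
    rw [hpb1, h3] at h1
    push_cast at h1 ⊢
    linarith

end Pool.Agent.Run7.h700.R2
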