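import Pool.Agent.Run7.h700.R2.Link

set_option autoImplicit false

/-!
The families of exponents in rank two.
-/

open Finset

namespace Pool.Agent.Run7.h700.R2

open Pool.Agent.Y227.SS Pool.Agent.R340.P3 Pool.Agent.R340.SY Pool.Agent.Run7.h700.PC

section defs

variable {Y : Type*} [Fintype Y]

/-- One exponent can be chosen at every point such that the sum is an integer; and the points at
which the two exponents do not differ by an integer have a proper nonempty subset `A` such that the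
sum over `A` of the differences of the chosen and the other exponent is an integer. -/
def TwoBlocks (E : Y → Fin 2 → ℚ) : Prop :=
  ∃ (κ : Y → Fin 2) (A : Finset Y), A.Nonempty ∧ (∀ p ∈ A, (E p 1 - E p 0).den ≠ 1) ∧
    (∃ p, p ∉ A ∧ (E p 1 - E p 0).den ≠ 1) ∧ (∃ k : ℤ, ∑ p, E p (κ p) = k) ∧
    ∃ k : ℤ, ∑ p ∈ A, (E p (κ p) - E p (1 - κ p)) = k

/-- The points at which the two exponents do not differ by an integer have disjoint nonempty subsets
`A` and `B`, which do not contain all of them, such that the sums over `A` and over `B` of the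
differences of one exponent and the other, suitably chosen, are equal to `1/2` modulo the integers. -/
def TwoHalves (E : Y → Fin 2 → ℚ) : Prop :=
  ∃ (κ : Y → Fin 2) (A B : Finset Y), A.Nonempty ∧ B.Nonempty ∧ Disjoint A B ∧
    (∀ p, p ∈ A ∨ p ∈ B → (E p 1 - E p 0).den ≠ 1) ∧
    (∃ p, p ∉ A ∧ p ∉ B ∧ (E p 1 - E p 0).den ≠ 1) ∧
    (∃ k : ℤ, ∑ p ∈ A, (E p (κ p) - E p (1 - κ p)) = k + 1 / 2) ∧
    ∃ k : ℤ, ∑ p ∈ B, (E p (κ p) - E p (1 - κ p)) = k + 1 / 2

/-- The differences of the exponents at the points at which they do not differ by an integer satisfy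
three linearly independent relations modulo the integers, with integral coefficients of absolute
value at most `M`. -/
def ThreeRelations (E : Y → Fin 2 → ℚ) (M : ℕ) : Prop :=
  ∃ g : Fin 3 → Y → ℤ, LinearIndependent ℚ (fun j p => (g j p : ℚ)) ∧ (∀ j p, |g j p| ≤ M) ∧
    (∀ j p, (E p 1 - E p 0).den = 1 → g j p = 0) ∧
    ∀ j, ∃ k : ℤ, ∑ p, (g j p : ℚ) * (E p 1 - E p 0) = k

/-- The sum of one exponent at every point, suitably chosen, is an integer. -/
def SumInt (E : Y → Fin 2 → ℚ) : Prop := ∃ (κ : Y → Fin 2) (k : ℤ), ∑ p, E p (κ p) = k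

end defs

section transfer

variable {Y : Type*} [Fintype Y] [DecidableEq Y] (E : Y → Fin 2 → ℚ)

/-- The points with nonintegral differences. -/
def jumps : Finset Y := univ.filter fun p => (E p 1 - E p 0).den ≠ 1

omit [DecidableEq Y] in
lemma mem_jumps {p : Y} : p ∈ jumps E ↔ (E p 1 - E p 0).den ≠ 1 := by
  simp [jumps]

/-- The point given by the exponents. -/
def pnt (T : Finset Y) : Option {p // p ∈ T} → ℚ
  | some p => E p.1 1 - E p.1 0
  | none => ∑ p, E p 0

/-- The choice given by a subset. -/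
def ch {T : Finset Y} (K : Finset {p // p ∈ T}) (p : Y) : Fin 2 :=
  if ∃ h : p ∈ T, (⟨p, h⟩ : {p // p ∈ T}) ∈ K then 1 else 0

/-- The choice given by signs. -/
def chs {T : Finset Y} (σ : {p // p ∈ T} → ℤ) (p : Y) : Fin 2 :=
  if ∃ h : p ∈ T, σ ⟨p, h⟩ = 1 then 1 else 0

omit [Fintype Y] in
lemma chs_eq {T : Finset Y} (σ : {p // p ∈ T} → ℤ) (hσ : ∀ z, σ z = 1 ∨ σ z = -1)
    (z : {p // p ∈ T}) : E z.1 (chs σ z.1) - E z.1 (1 - chs σ z.1) = σ z * (E z.1 1 - E z.1 0) := by
  unfold chs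
  rcases hσ z with h | h
  · rw [if_pos ⟨z.2, h⟩, h]
    simp
  · rw [if_neg (by rintro ⟨h1, h2⟩; rw [h] at h2; norm_num at h2), h]
    simp

omit [Fintype Y] in
lemma ch_eq_chs {T : Finset Y} (K : Finset {p // p ∈ T}) : ch K = chs (sg K) := by
  funext p
  unfold ch chs
  congr 1
  apply propext
  constructor
  · rintro ⟨h, h1⟩
    exact ⟨h, by unfold sg; rw [if_pos h1]⟩
  · rintro ⟨h, h1⟩
    refine ⟨h, ?_⟩
    by_contra h2
    unfold sg at h1
    rw [if_neg h2] at h1
    norm_num at h1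

omit [Fintype Y] in
lemma sg_one {T : Finset Y} (K : Finset {p // p ∈ T}) (z : {p // p ∈ T}) :
    sg K z = 1 ∨ sg K z = -1 := by
  unfold sg
  split_ifs
  · exact Or.inl rfl
  · exact Or.inr rfl

omit [Fintype Y] [DecidableEq Y] in
lemma sum_map_sub {T : Finset Y} {B : Type*} [AddCommMonoid B] (A : Finset {p // p ∈ T})
    (f : Y → B) : ∑ p ∈ A.map (Function.Embedding.subtype _), f p = ∑ z ∈ A, f z.1 := by
  rw [sum_map]
  rfl

lemma sum_ch {T : Finset Y} (K : Finset {p // p ∈ T}) :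
    ∑ p, E p (ch K p) = pnt E T none + ∑ z ∈ K, pnt E T (some z) := by
  have h1 : ∀ p, E p (ch K p) = E p 0 +
      if ∃ h : p ∈ T, (⟨p, h⟩ : {p // p ∈ T}) ∈ K then E p 1 - E p 0 else 0 := by
    intro p
    unfold ch
    split_ifs <;> ring
  rw [sum_congr rfl fun p _ => h1 p, sum_add_distrib]
  congr 1
  rw [← sum_filter]
  have h2 : (univ.filter fun p => ∃ h : p ∈ T, (⟨p, h⟩ : {p // p ∈ T}) ∈ K) =
      K.map (Function.Embedding.subtype _) := by
    ext p
    simp only [mem_filter, mem_univ, true_and, mem_map, Function.Embedding.coe_subtype]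
    constructor
    · rintro ⟨h, h1⟩
      exact ⟨⟨p, h⟩, h1, rfl⟩
    · rintro ⟨z, h1, rfl⟩
      exact ⟨z.2, h1⟩
  rw [h2, sum_map_sub]
  rfl

variable {E}

lemma SumInt.of (h : SumRel (pnt E (jumps E))) : SumInt E := by
  obtain ⟨K, k, hk⟩ := h
  exact ⟨ch K, k, by rw [sum_ch, hk]⟩

lemma TwoBlocks.of (h : BlockRel (pnt E (jumps E))) : TwoBlocks E := by
  obtain ⟨K, A, hA, hAu, ⟨k, hk⟩, ⟨l, hl⟩⟩ := h
  obtain ⟨z, hz⟩ : ∃ z, z ∉ A := by
    by_contra hcon
    push Not at hcon
    exact hAu (eq_univ_of_forall hcon)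
  refine ⟨ch K, A.map (Function.Embedding.subtype _), hA.map, ?_, ?_, ?_, ?_⟩
  · intro p hp
    obtain ⟨w, -, rfl⟩ := mem_map.1 hp
    exact (mem_jumps E).1 w.2
  · refine ⟨z.1, ?_, (mem_jumps E).1 z.2⟩
    intro hcon
    obtain ⟨w, hw, hwz⟩ := mem_map.1 hcon
    exact hz (by rw [← Subtype.ext (show w.1 = z.1 from hwz)]; exact hw)
  · exact ⟨k, by rw [sum_ch, hk]⟩
  · refine ⟨l, ?_⟩
    rw [sum_map_sub, ← hl]
    refine sum_congr rfl fun w _ => ?_
    rw [ch_eq_chs, chs_eq E _ (sg_one K)]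
    rfl

lemma TwoHalves.of (h : HalfRel (pnt E (jumps E))) : TwoHalves E := by
  obtain ⟨σ, A, B, hσ, hA, hB, hAB, hu, ⟨k, hk⟩, ⟨l, hl⟩⟩ := h
  obtain ⟨z, hz⟩ : ∃ z, z ∉ A ∪ B := by
    by_contra hcon
    push Not at hcon
    exact hu (eq_univ_of_forall hcon)
  rw [mem_union, not_or] at hz
  have hmem : ∀ {C : Finset {p // p ∈ jumps E}}, z ∉ C →
      z.1 ∉ C.map (Function.Embedding.subtype _) := by
    intro C hC hcon
    obtain ⟨w, hw, hwz⟩ := mem_map.1 hcon
    exact hC (by rw [← Subtype.ext (show w.1 = z.1 from hwz)]; exact hw)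
  refine ⟨chs σ, A.map (Function.Embedding.subtype _), B.map (Function.Embedding.subtype _),
    hA.map, hB.map, (disjoint_map _).2 hAB, ?_, ?_, ?_, ?_⟩
  · rintro p (hp | hp) <;>
    · obtain ⟨w, -, rfl⟩ := mem_map.1 hp
      exact (mem_jumps E).1 w.2
  · exact ⟨z.1, hmem hz.1, hmem hz.2, (mem_jumps E).1 z.2⟩
  · refine ⟨k, ?_⟩
    rw [sum_map_sub, ← hk]
    refine sum_congr rfl fun w _ => ?_
    rw [chs_eq E _ hσ]
    rfl
  · refine ⟨l, ?_⟩
    rw [sum_map_sub, ← hl]
    refine sum_congr rfl fun w _ => ?_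
    rw [chs_eq E _ hσ]
    rfl

lemma ThreeRelations.of {M : ℕ} (h : ThreeRel M (pnt E (jumps E))) : ThreeRelations E M := by
  obtain ⟨g, hli, hM, hk⟩ := h
  set G : Fin 3 → Y → ℤ := fun j p => if h : p ∈ jumps E then g j ⟨p, h⟩ else 0 with hG
  have hGz : ∀ j (z : {p // p ∈ jumps E}), G j z.1 = g j z := fun j z => dif_pos z.2
  have hG0 : ∀ j p, p ∉ jumps E → G j p = 0 := fun j p h => dif_neg h
  refine ⟨G, ?_, ?_, ?_, ?_⟩
  · rw [Fintype.linearIndependent_iff] at hli ⊢
    intro c hc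
    refine hli c ?_
    funext z
    have h1 := congrFun hc z.1
    simp only [Finset.sum_apply, Pi.smul_apply, smul_eq_mul, Pi.zero_apply, hGz] at h1 ⊢
    exact h1
  · intro j p
    by_cases h : p ∈ jumps E
    · have := hM j ⟨p, h⟩
      rw [← hGz] at this
      exact this
    · rw [hG0 j p h, abs_zero]
      positivity
  · intro j p hp
    exact hG0 j p (fun h => (mem_jumps E).1 h hp)
  · intro j
    obtain ⟨k, hk⟩ := hk j
    refine ⟨k, ?_⟩
    rw [← hk, sum_restr (jumps E)]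
    have h1 : ∑ p ∈ (jumps E)ᶜ, (G j p : ℚ) * (E p 1 - E p 0) = 0 := by
      refine sum_eq_zero fun p hp => ?_
      rw [hG0 j p (mem_compl.1 hp)]
      simp
    rw [h1, add_zero]
    refine sum_congr rfl fun z _ => ?_
    rw [hGz]
    rfl

lemma ThreeRelations.mono {M M' : ℕ} (h : M ≤ M') (hx : ThreeRelations E M) :
    ThreeRelations E M' := by
  obtain ⟨g, h1, h2, h3, h4⟩ := hx
  exact ⟨g, h1, fun j z => (h2 j z).trans (by exact_mod_cast h), h3, h4⟩

end transfer

section expo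

variable {m N : ℕ} {lam : Fin m → Fin 2 → ℚ} {phi : Fin 2 → ℚ}

/-- For all `a` prime to `N` the multiples by `a` are the weights, modulo the integers, of a stable
parabolic bundle of parabolic degree zero on the projective line over `ℂ`. -/
def ConjStable (lam : Fin m → Fin 2 → ℚ) (phi : Fin 2 → ℚ) (N : ℕ) : Prop :=
  ∀ a : ℤ, IsCoprime a (N : ℤ) →
    StableWeights ℂ (fun j l => (a : ℝ) * lam j l) (fun l => (a : ℝ) * phi l)

lemma ConjStable.semi (h : ConjStable lam phi N) : ConjSemi lam phi N :=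
  fun a ha => semi_of_stable (h a ha)

lemma good_conj (h : ConjSemi lam phi N) (a : ℤ) (ha : IsCoprime a (N : ℤ)) :
    Good (dv (wts (fun j l => (a : ℝ) * lam j l) (fun l => (a : ℝ) * phi l))) :=
  good_of fun β k hk => by
    have := sum_fract_ge (h a ha) β k hk
    exact_mod_cast this

lemma strict_conj (h : ConjStable lam phi N) (a : ℤ) (ha : IsCoprime a (N : ℤ)) :
    Strict (dv (wts (fun j l => (a : ℝ) * lam j l) (fun l => (a : ℝ) * phi l))) :=
  strict_of fun β k hk => by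
    have := sum_fract_ge_stable le_rfl (h a ha) β k hk
    exact_mod_cast this

lemma restr_eq (a : ℤ) :
    restr (dv (wts (fun j l => (a : ℝ) * lam j l) (fun l => (a : ℝ) * phi l)))
      (jumps (expo lam phi)) = fun i => (a : ℝ) * pnt (expo lam phi) (jumps (expo lam phi)) i := by
  funext i
  cases i with
  | none =>
    simp only [restr, dv, pnt, wts_expo]
    push_cast
    rw [mul_sum]
  | some p =>
    simp only [restr, dv, pnt, wts_expo]
    push_cast
    ring

lemma off_jumps (a : ℤ) (p : Option (Fin m)) (hp : p ∉ jumps (expo lam phi)) : ∃ k : ℤ,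
    dv (wts (fun j l => (a : ℝ) * lam j l) (fun l => (a : ℝ) * phi l)) (some p) = k := by
  rw [mem_jumps, not_not] at hp
  obtain ⟨z, hz⟩ := (den_one_iff _).1 hp
  refine ⟨a * z, ?_⟩
  simp only [dv, wts_expo]
  have h1 : ((a : ℚ) * expo lam phi p 1 - (a : ℚ) * expo lam phi p 0 : ℚ) = ((a * z : ℤ) : ℚ) := by
    push_cast
    rw [← hz]
    ring
  have h2 := congrArg (fun q : ℚ => (q : ℝ)) h1
  push_cast at h2 ⊢
  exact h2

lemma trace_int (h : ConjSemi lam phi N) : ∃ F : ℤ,
    ∑ p, pnt (expo lam phi) (jumps (expo lam phi)) (some p) +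
      2 * pnt (expo lam phi) (jumps (expo lam phi)) none = F := by
  classical
  obtain ⟨F, hF⟩ := sum_int (h 1 isCoprime_one_left)
  have hE : ∑ p, ∑ l, expo lam phi p l = F := by
    have h1 : ((∑ j, ∑ l, lam j l : ℚ) : ℝ) = ((∑ l, phi l + F : ℚ) : ℝ) := by
      push_cast at hF ⊢
      simpa using hF
    have h2 : ∑ j, ∑ l, lam j l = ∑ l, phi l + F := by exact_mod_cast h1
    rw [Fintype.sum_option]
    simp only [expo, sum_neg_distrib, h2]
    ring
  have hint : ∀ p ∈ (jumps (expo lam phi))ᶜ, ∃ z : ℤ, expo lam phi p 1 - expo lam phi p 0 = z := by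
    intro p hp
    rw [mem_compl, mem_jumps, not_not] at hp
    exact (den_one_iff _).1 hp
  choose! g hg using hint
  refine ⟨F - ∑ p ∈ (jumps (expo lam phi))ᶜ, g p, ?_⟩
  have h3 : ∑ p, (expo lam phi p 1 - expo lam phi p 0) =
      ∑ p : {p // p ∈ jumps (expo lam phi)}, (expo lam phi p.1 1 - expo lam phi p.1 0) +
        ∑ p ∈ (jumps (expo lam phi))ᶜ, (expo lam phi p 1 - expo lam phi p 0) :=
    sum_restr _ _
  have h4 : ∑ p ∈ (jumps (expo lam phi))ᶜ, (expo lam phi p 1 - expo lam phi p 0) =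
      ((∑ p ∈ (jumps (expo lam phi))ᶜ, g p : ℤ) : ℚ) := by
    push_cast
    exact sum_congr rfl hg
  have h5 : ∑ p, ∑ l, expo lam phi p l = ∑ p, (expo lam phi p 1 - expo lam phi p 0) +
      2 * ∑ p, expo lam phi p 0 := by
    simp only [Fin.sum_univ_two, sum_add_distrib, sum_sub_distrib]
    ring
  simp only [pnt]
  rw [h5, h3, h4] at hE
  push_cast at hE ⊢
  linarith

/-- Stable bundles of rank two have nonintegral differences. -/
lemma jumps_nonempty (h : ConjStable lam phi N) : (jumps (expo lam phi)).Nonempty := by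
  by_contra hcon
  rw [not_nonempty_iff_eq_empty] at hcon
  have hint : ∀ p, ∃ z : ℤ, expo lam phi p 1 - expo lam phi p 0 = z := by
    intro p
    refine (den_one_iff _).1 ?_
    by_contra h1
    have : p ∈ jumps (expo lam phi) := (mem_jumps _).2 h1
    rw [hcon] at this
    simp at this
  choose g hg using hint
  have hst := h 1 isCoprime_one_left
  set β : Option (Fin m) → ℝ := fun p => (((1 : ℤ) : ℚ) * expo lam phi p 0 : ℚ) with hβ
  have h0 : ∑ p, ∑ l, Int.fract (wts (fun j l => ((1 : ℤ) : ℝ) * lam j l)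
      (fun l => ((1 : ℤ) : ℝ) * phi l) p l - β p) = 0 := by
    refine sum_eq_zero fun p _ => ?_
    rw [Fin.sum_univ_two]
    simp only [wts_expo, hβ]
    have e2 : (((((1 : ℤ) : ℚ) * expo lam phi p 1 : ℚ) : ℝ)) -
        (((1 : ℤ) : ℚ) * expo lam phi p 0 : ℚ) = ((g p : ℤ) : ℝ) := by
      rw [← Rat.cast_sub]
      have : ((1 : ℤ) : ℚ) * expo lam phi p 1 - ((1 : ℤ) : ℚ) * expo lam phi p 0 = (g p : ℚ) := by
        rw [← hg p]; push_cast; ring
      rw [this]
      push_cast
      rfl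
    rw [sub_self, Int.fract_zero, e2, Int.fract_intCast, add_zero]
  have h1 := sum_fract_ge_stable le_rfl hst β ⌊∑ p, β p⌋ (Int.floor_le _)
  rw [h0] at h1
  have h2 := Int.lt_floor_add_one (∑ p, β p)
  push_cast at h1
  linarith

theorem semi_pts (hN : 0 < N) (h : ConjSemi lam phi N) :
    pnt (expo lam phi) (jumps (expo lam phi)) ∈ Pts (Good (X := {p // p ∈ jumps (expo lam phi)})) := by
  refine ⟨trace_int h, AllConj.mk' (fun y hy z => hy.shift z) hN fun a ha => ?_⟩
  rw [← restr_eq]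
  exact (good_conj h a ha).restr (off_jumps a)

theorem strict_pts (hN : 0 < N) (h : ConjStable lam phi N) :
    pnt (expo lam phi) (jumps (expo lam phi)) ∈
      Pts (Strict (X := {p // p ∈ jumps (expo lam phi)})) := by
  refine ⟨trace_int h.semi, AllConj.mk' (fun y hy z => hy.shift z) hN fun a ha => ?_⟩
  rw [← restr_eq]
  exact (strict_conj h a ha).restr (off_jumps a)

/-- **The exponents of semistable systems of rank two all of whose conjugates are semistable.** -/
theorem semi_class (m : ℕ) : ∃ M : ℕ, ∀ (lam : Fin m → Fin 2 → ℚ) (phi : Fin 2 → ℚ) (N : ℕ),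
    0 < N → ConjSemi lam phi N → (jumps (expo lam phi)).Nonempty →
    SumInt (expo lam phi) ∨ TwoHalves (expo lam phi) ∨ ThreeRelations (expo lam phi) M := by
  have hM : ∀ T : Finset (Option (Fin m)), ∃ M : ℕ, T.Nonempty → ∀ x ∈ Pts (Good (X := {p // p ∈ T})),
      SumRel x ∨ HalfRel x ∨ ThreeRel M x := by
    intro T
    by_cases hT : T.Nonempty
    · have : Nonempty {p // p ∈ T} := ⟨⟨_, hT.choose_spec⟩⟩
      obtain ⟨M, hM⟩ := points_semi (X := {p // p ∈ T})
      exact ⟨M, fun _ => hM⟩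
    · exact ⟨0, fun h => absurd h hT⟩
  choose M hM using hM
  refine ⟨∑ T, M T, fun lam phi N hN h hne => ?_⟩
  rcases hM _ hne _ (semi_pts hN h) with h1 | h1 | h1
  · exact Or.inl (SumInt.of h1)
  · exact Or.inr (Or.inl (TwoHalves.of h1))
  · refine Or.inr (Or.inr ((ThreeRelations.of h1).mono ?_))
    exact single_le_sum (f := M) (fun _ _ => Nat.zero_le _) (mem_univ _)

/-- **The exponents of stable systems of rank two all of whose conjugates are stable.** -/
theorem stable_class (m : ℕ) : ∃ M : ℕ, ∀ (lam : Fin m → Fin 2 → ℚ) (phi : Fin 2 → ℚ) (N : ℕ),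
    0 < N → ConjStable lam phi N →
    TwoBlocks (expo lam phi) ∨ TwoHalves (expo lam phi) ∨ ThreeRelations (expo lam phi) M := by
  have hM : ∀ T : Finset (Option (Fin m)), ∃ M : ℕ, T.Nonempty →
      ∀ x ∈ Pts (Strict (X := {p // p ∈ T})), BlockRel x ∨ HalfRel x ∨ ThreeRel M x := by
    intro T
    by_cases hT : T.Nonempty
    · have : Nonempty {p // p ∈ T} := ⟨⟨_, hT.choose_spec⟩⟩
      obtain ⟨M, hM⟩ := points_strict (X := {p // p ∈ T})
      exact ⟨M, fun _ => hM⟩
    · exact ⟨0, fun h => absurd h hT⟩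
  choose M hM using hM
  refine ⟨∑ T, M T, fun lam phi N hN h => ?_⟩
  rcases hM _ (jumps_nonempty h) _ (strict_pts hN h) with h1 | h1 | h1
  · exact Or.inl (TwoBlocks.of h1)
  · exact Or.inr (Or.inl (TwoHalves.of h1))
  · refine Or.inr (Or.inr ((ThreeRelations.of h1).mono ?_))
    exact single_le_sum (f := M) (fun _ _ => Nat.zero_le _) (mem_univ _)

end expo

end Pool.Agent.Run7.h700.R2
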