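import Pool.Agent.Run7.h700.R2.Class

set_option autoImplicit false

/-!
The classification of the points all whose conjugates satisfy the inequalities, up to three relations.
-/

open Finset Pool.Agent.W432.TC

namespace Pool.Agent.Run7.h700.R2

variable {X : Type*} [Fintype X] [DecidableEq X]

variable {P : (Option X → ℝ) → Prop} {L : AddSubgroup (Option X → ℤ)} {c : Option X → ℚ} {F : ℤ}

omit [Fintype X] [DecidableEq X] in
lemma odd_of_far_one {p : ℚ} (h : ∀ n : ℤ, 1 ≤ |p + 2 * n|) : ∃ k : ℤ, p = 2 * k + 1 := by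
  set i : ℤ := -round (p / 2) with hi
  have h1 := abs_sub_round (p / 2)
  have hi' : (i : ℚ) = -(round (p / 2) : ℤ) := by rw [hi]; push_cast; rfl
  have e1 : |p + 2 * i| ≤ 1 := by
    rw [hi', show p + 2 * -((round (p / 2) : ℤ) : ℚ) =
      2 * (p / 2 - (round (p / 2) : ℤ)) by ring, abs_mul, abs_two]
    linarith
  have h2 := h i
  have h3 : |p + 2 * i| = 1 := le_antisymm e1 h2
  rcases (abs_eq zero_le_one).1 h3 with h4 | h4
  · exact ⟨-i, by push_cast; linarith⟩
  · exact ⟨-i - 1, by push_cast; linarith⟩

/-- The structure of one relation. -/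
def Single (L : AddSubgroup (Option X → ℤ)) (c : Option X → ℚ) : Prop :=
  ∃ (K : Finset X), (∀ g ∈ W L, ∃ p : ℚ, ∀ z, g z = p * sg K z) ∧ kap K ∈ L ∧
    ∃ k : ℤ, c none + ∑ z ∈ K, c (some z) = k

theorem class_one [Nonempty X] (hC : IsCos P L c) (hP : ∀ y, P y → Good y)
    (hF : ∑ x', c (some x') + 2 * c none = F) (hW : Module.finrank ℚ (W L) = 1) : Single L c := by
  obtain ⟨x, a, haW, hax, ha1, hspan⟩ := frame_one hW
  have star : ∀ e : X → ℤ, Odd (∑ z, e z - F) → 1 ≤ |pr a c e| := by
    intro e he
    have h := hC.base_rat hP hF (d := fun z => e z - (if z = x then pr a c e else 0))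
      (fun g hg => by
        have h1 : ∀ z, g z * (e z - (if z = x then pr a c e else 0) - c (some z)) =
            g x * (a z * (e z - c (some z))) - (if z = x then g z * pr a c e else 0) := by
          intro z
          rw [← mul_assoc, ← hspan g hg z]
          split_ifs <;> ring
        simp only [h1, sum_sub_distrib, sum_ite_eq', mem_univ, if_true, ← mul_sum]
        unfold pr
        ring) he
    refine h.trans ?_
    rw [sum_eq_single x]
    · rw [if_pos rfl, show (e x : ℚ) - pr a c e - e x = -pr a c e by ring, abs_neg]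
    · intro z _ hz
      rw [if_neg hz]
      simp
    · intro h; exact absurd (mem_univ x) h
  have dich : ∀ e : X → ℤ, Odd (∑ z, e z - F) → ∃ k : ℤ, pr a c e = 2 * k + 1 := by
    intro e he
    refine odd_of_far_one fun n => ?_
    have h := star (e + Pi.single x (2 * n)) (by
      rw [sum_single_add]
      have : ∑ z, e z + 2 * n - F = ∑ z, e z - F + 2 * n := by ring
      rw [this]
      exact he.add_even (even_two_mul _))
    rw [pr_single, hax, one_mul] at h
    push_cast at h
    exact h
  obtain ⟨K, hK1, hK2, hK3⟩ := sum_of hC hF haW hax (fun z => (ha1 z).trans (by norm_num)) dich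
  exact ⟨K, fun g hg => ⟨g x, fun z => by rw [hspan g hg z, hK1 z]⟩, hK2, hK3⟩

theorem class_zero [Nonempty X] (hC : IsCos P L c) (hP : ∀ y, P y → Good y)
    (hF : ∑ x', c (some x') + 2 * c none = F) (hW : Module.finrank ℚ (W L) = 0) : False := by
  have h0 : W L = ⊥ := Submodule.finrank_eq_zero.1 hW
  set x : X := Classical.arbitrary X
  have h := hC.base_rat hP hF (d := fun z => (((0 + Pi.single x (F + 1) : X → ℤ) z : ℤ) : ℚ))
    (fun g hg => by
      rw [h0, Submodule.mem_bot] at hg
      simp [hg]) (e := 0 + Pi.single x (F + 1)) (by rw [sum_single_add]; simp)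
  simp only [sub_self, abs_zero, sum_const_zero] at h
  norm_num at h

lemma sg_sq (K : Finset X) (z : X) : sg K z * sg K z = 1 := by
  unfold sg; split_ifs <;> norm_num

lemma sg_cases (K : Finset X) (z : X) : sg K z = 1 ∨ sg K z = -1 := by
  unfold sg; split_ifs
  · exact Or.inl rfl
  · exact Or.inr rfl

lemma even_sub_sg (K : Finset X) (z : X) (n : ℤ) : Even (n * (1 - sg K z)) := by
  rcases sg_cases K z with h | h <;> rw [h] <;> norm_num

lemma sum_sg {R : Type*} [CommRing R] (K : Finset X) (y : X → R) :
    ∑ z, (sg K z : R) * y z = 2 * ∑ z ∈ K, y z - ∑ z, y z := by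
  have h3 : ∑ z ∈ K, y z = ∑ z, if z ∈ K then y z else 0 := by
    rw [← sum_filter]; simp
  rw [h3, mul_sum, ← sum_sub_distrib]
  refine sum_congr rfl fun z _ => ?_
  rw [sg]
  split_ifs <;> push_cast <;> ring

lemma kap_sum (K : Finset X) (y : Option X → ℝ) :
    ∑ i, (kap K i : ℝ) * y i = y none + ∑ z ∈ K, y (some z) := by
  rw [Fintype.sum_option]
  simp only [kap, Option.elim]
  push_cast
  rw [one_mul]
  congr 1
  have h3 : ∑ z ∈ K, y (some z) = ∑ z, if z ∈ K then y (some z) else 0 := by
    rw [← sum_filter]; simp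
  rw [h3]
  refine sum_congr rfl fun z _ => ?_
  split_ifs <;> simp

/-- A point of the coset all whose neighbours in the coset are not strict. -/
theorem contra (hC : IsCos P L c) (hP : ∀ y, P y → Strict y)
    (hF : ∑ x', c (some x') + 2 * c none = F) {K : Finset X} (hK : kap K ∈ L)
    (hk : ∃ k : ℤ, c none + ∑ z ∈ K, c (some z) = k) {e : X → ℤ} (he : Odd (∑ z, e z - F))
    {t : X → ℚ} (ht : ∀ z, 0 < t z) (ht1 : ∑ z, t z = 1)
    (hd : ∀ g ∈ W L, ∑ z, g z * (e z - sg K z * t z - c (some z)) = 0) : False := by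
  classical
  have hne : (univ : Finset X).Nonempty := by
    rw [univ_nonempty_iff]
    by_contra h
    rw [not_nonempty_iff] at h
    rw [Finset.univ_eq_empty, sum_empty] at ht1
    norm_num at ht1
  set d : X → ℝ := fun z => ((e z - sg K z * t z : ℚ) : ℝ) with hddef
  have hy : InCoset L c (pt c d) := pt_inCoset (fun g hg => by
    have h1 := congrArg (fun q : ℚ => (q : ℝ)) (hd g hg)
    simp only [hddef]
    push_cast at h1 ⊢
    exact h1)
  obtain ⟨m, -, hm⟩ := exists_min_image univ (fun z => (t z : ℝ)) hne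
  have htm : (0 : ℝ) < t m := by exact_mod_cast ht m
  set n : ℝ := ((Fintype.card X : ℕ) : ℝ) with hn
  have hn0 : 0 ≤ n := Nat.cast_nonneg _
  obtain ⟨x, hPx, hrel, hnear⟩ := hC.near _ hy (min (t m) (1 / (n + 3))) (by positivity)
  have htry : tr (pt c d) = F := by rw [tr_pt, hF]; push_cast; rfl
  -- closeness of sums
  have hclose : ∀ z, |x (some z) - pt c d (some z)| < 1 / (n + 3) := fun z =>
    (hnear _).trans_le (min_le_right _ _)
  have hcloseN : |x none - pt c d none| < 1 / (n + 3) := (hnear _).trans_le (min_le_right _ _)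
  have hn3 : n * (1 / (n + 3)) + 2 * (1 / (n + 3)) < 1 := by
    rw [← add_mul, mul_one_div, div_lt_one (by positivity)]
    linarith
  have hpos3 : 0 < 1 / (n + 3) := by positivity
  have htr : tr x = F := by
    obtain ⟨w, hw⟩ := hrel tau hC.tauMem ⟨F, by rw [tau_sum, htry]⟩
    rw [tau_sum] at hw
    have h3 : |tr x - tr (pt c d)| < 1 := by
      have e1 : tr x - tr (pt c d) = ∑ x', (x (some x') - pt c d (some x')) +
          2 * (x none - pt c d none) := by
        unfold tr; rw [sum_sub_distrib]; ring
      rw [e1]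
      have b1 : |∑ x', (x (some x') - pt c d (some x'))| ≤ ∑ _x' : X, (1 / (n + 3)) :=
        (abs_sum_le_sum_abs _ _).trans (sum_le_sum fun i _ => (hclose i).le)
      rw [sum_const, card_univ, nsmul_eq_mul] at b1
      have b3 : |∑ x', (x (some x') - pt c d (some x')) + 2 * (x none - pt c d none)| ≤
          |∑ x', (x (some x') - pt c d (some x'))| + 2 * |x none - pt c d none| := by
        refine (abs_add_le _ _).trans ?_
        rw [abs_mul, abs_two]
      linarith
    rw [hw, htry] at h3
    have h4 : |((w - F : ℤ) : ℝ)| < 1 := by push_cast; exact h3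
    have h5 : |w - F| < 1 := by exact_mod_cast h4
    have h6 := Int.abs_lt_one_iff.1 h5
    have h7 : w = F := by linarith
    rw [hw, h7]
  -- the sum over `K`
  have hSK : x none + ∑ z ∈ K, x (some z) = pt c d none + ∑ z ∈ K, pt c d (some z) := by
    obtain ⟨k, hk⟩ := hk
    obtain ⟨w1, hw1⟩ := hy (kap K) hK
    have hyK : ∃ w : ℤ, ∑ i, (kap K i : ℝ) * pt c d i = w := by
      refine ⟨w1 + k, ?_⟩
      have h1 : ∑ i, (kap K i : ℝ) * (pt c d i - c i) =
          ∑ i, (kap K i : ℝ) * pt c d i - ∑ i, (kap K i : ℝ) * (fun i => (c i : ℝ)) i := by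
        rw [← sum_sub_distrib]
        exact sum_congr rfl fun i _ => by ring
      rw [h1, kap_sum K (fun i => (c i : ℝ))] at hw1
      have h2 : (c none : ℝ) + ∑ z ∈ K, (c (some z) : ℝ) = k := by exact_mod_cast hk
      push_cast
      linarith
    obtain ⟨w2, hw2⟩ := hrel (kap K) hK hyK
    obtain ⟨w3, hw3⟩ := hyK
    rw [kap_sum] at hw2 hw3
    have h3 : |(x none + ∑ z ∈ K, x (some z)) - (pt c d none + ∑ z ∈ K, pt c d (some z))| < 1 := by
      have e1 : (x none + ∑ z ∈ K, x (some z)) - (pt c d none + ∑ z ∈ K, pt c d (some z)) =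
          (x none - pt c d none) + ∑ z ∈ K, (x (some z) - pt c d (some z)) := by
        rw [sum_sub_distrib]; ring
      rw [e1]
      have b1 : |∑ z ∈ K, (x (some z) - pt c d (some z))| ≤ ∑ z : X, (1 / (n + 3)) :=
        (abs_sum_le_sum_abs _ _).trans ((sum_le_sum fun i _ => (hclose i).le).trans
          (sum_le_sum_of_subset_of_nonneg (subset_univ _) fun _ _ _ => hpos3.le))
      rw [sum_const, card_univ, nsmul_eq_mul] at b1
      have := abs_add_le (x none - pt c d none) (∑ z ∈ K, (x (some z) - pt c d (some z)))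
      linarith
    rw [hw2, hw3] at h3
    have h4 : |((w2 - w3 : ℤ) : ℝ)| < 1 := by push_cast; exact h3
    have h5 : |w2 - w3| < 1 := by exact_mod_cast h4
    have h6 := Int.abs_lt_one_iff.1 h5
    rw [hw2, hw3, show w2 = w3 by linarith]
  -- the distance
  have hdist := hP x hPx e F htr he
  have habs : ∀ z, |x (some z) - e z| = (sg K z : ℝ) * (e z - x (some z)) := by
    intro z
    have h1 : |x (some z) - d z| < t z := ((hnear (some z)).trans_le (min_le_left _ _)).trans_le
      (hm z (mem_univ z))
    have h2 : d z = e z - sg K z * t z := by simp only [hddef]; push_cast; rfl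
    rw [h2, abs_lt] at h1
    rcases sg_cases K z with h | h
    · rw [h] at h1 ⊢
      push_cast at h1 ⊢
      rw [abs_of_nonpos (by linarith)]
      ring
    · rw [h] at h1 ⊢
      push_cast at h1 ⊢
      rw [abs_of_nonneg (by linarith)]
      ring
  rw [sum_congr rfl fun z _ => habs z] at hdist
  have h1 : ∑ z, (sg K z : ℝ) * (e z - x (some z)) =
      ∑ z, (sg K z : ℝ) * e z - ∑ z, (sg K z : ℝ) * x (some z) := by
    rw [← sum_sub_distrib]
    exact sum_congr rfl fun z _ => by ring
  have h2 : ∑ z, (sg K z : ℝ) * x (some z) = ∑ z, (sg K z : ℝ) * pt c d (some z) := by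
    rw [sum_sg, sum_sg]
    unfold tr at htr htry
    linarith
  have h3 : ∑ z, (sg K z : ℝ) * pt c d (some z) = ∑ z, (sg K z : ℝ) * e z - 1 := by
    have h4 : (1 : ℝ) = ∑ z, (t z : ℝ) := by
      rw [← Rat.cast_sum, ht1, Rat.cast_one]
    rw [h4, ← sum_sub_distrib]
    refine sum_congr rfl fun z _ => ?_
    have h5 : (sg K z : ℝ) * sg K z = 1 := by exact_mod_cast sg_sq K z
    have h2 : pt c d (some z) = e z - sg K z * t z := by
      simp only [pt, hddef]; push_cast; rfl
    rw [h2]
    linear_combination (-(t z : ℝ)) * h5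
  rw [h1, h2, h3] at hdist
  linarith

lemma sum_c (hF : ∑ x', c (some x') + 2 * c none = F) {K : Finset X} {k : ℤ}
    (hk : c none + ∑ z ∈ K, c (some z) = k) :
    ∑ z, (sg K z : ℚ) * c (some z) = 2 * k - F := by
  rw [sum_sg]
  linarith

/-- There is an odd point at which the sum with signs is one. -/
lemma exists_one (hF : ∑ x', c (some x') + 2 * c none = F) {K : Finset X}
    (hk : ∃ k : ℤ, c none + ∑ z ∈ K, c (some z) = k) (x : X) :
    ∃ e : X → ℤ, Odd (∑ z, e z - F) ∧ pr (fun z => (sg K z : ℚ)) c e = 1 := by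
  obtain ⟨k, hk⟩ := hk
  refine ⟨0 + Pi.single x (sg K x * (2 * k - F + 1)), ?_, ?_⟩
  · rw [sum_single_add]
    simp only [Pi.zero_apply, sum_const_zero, zero_add]
    rcases sg_cases K x with h | h <;> rw [h]
    · exact ⟨k - F, by ring⟩
    · exact ⟨-k - 1, by ring⟩
  · rw [pr_single]
    have h1 : pr (fun z => (sg K z : ℚ)) c 0 = -∑ z, (sg K z : ℚ) * c (some z) := by
      unfold pr
      rw [← sum_neg_distrib]
      refine sum_congr rfl fun z _ => ?_
      simp
    have h5 : (sg K x : ℚ) * sg K x = 1 := by exact_mod_cast sg_sq K x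
    rw [h1, sum_c hF hk]
    push_cast
    linear_combination (2 * (k : ℚ) - F + 1) * h5

lemma pr_split (a : X → ℚ) (c : Option X → ℚ) (e : X → ℤ) (K : Finset X) (t : X → ℚ) :
    ∑ z, a z * (e z - sg K z * t z - c (some z)) = pr a c e - ∑ z, a z * sg K z * t z := by
  unfold pr
  rw [← sum_sub_distrib]
  exact sum_congr rfl fun z _ => by ring

theorem single_false [Nonempty X] (hC : IsCos P L c) (hP : ∀ y, P y → Strict y)
    (hF : ∑ x', c (some x') + 2 * c none = F) (h : Single L c) : False := by
  obtain ⟨K, hspan, hK, hk⟩ := h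
  obtain ⟨e, he, hone⟩ := exists_one hF hk (Classical.arbitrary X)
  have hcard : (Fintype.card X : ℚ) ≠ 0 := by exact_mod_cast Fintype.card_ne_zero
  have hcard' : (0 : ℚ) < Fintype.card X := by exact_mod_cast Fintype.card_pos
  refine contra hC hP hF hK hk he (t := fun _ => 1 / (Fintype.card X : ℚ)) (fun z => by positivity)
    (by rw [sum_const, card_univ, nsmul_eq_mul]; field_simp) fun g hg => ?_
  obtain ⟨p, hp⟩ := hspan g hg
  rw [pr_split]
  have h1 : pr g c e = p * pr (fun z => (sg K z : ℚ)) c e := by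
    unfold pr
    rw [mul_sum]
    exact sum_congr rfl fun z _ => by rw [hp z]; ring
  have h2 : ∑ z, g z * sg K z * (1 / (Fintype.card X : ℚ)) = p := by
    have h3 : ∀ z, g z * sg K z * (1 / (Fintype.card X : ℚ)) = p * (1 / (Fintype.card X : ℚ)) := by
      intro z
      have h5 : (sg K z : ℚ) * sg K z = 1 := by exact_mod_cast sg_sq K z
      rw [hp z]
      linear_combination p * (1 / (Fintype.card X : ℚ)) * h5
    rw [sum_congr rfl fun z _ => h3 z, sum_const, card_univ, nsmul_eq_mul]
    field_simp
  rw [h1, h2, hone]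
  ring

/-- The structure of two blocks. -/
def Blocks (L : AddSubgroup (Option X → ℤ)) (c : Option X → ℚ) : Prop :=
  ∃ (K A : Finset X), A.Nonempty ∧ A ≠ univ ∧ kap K ∈ L ∧
    (∃ k : ℤ, c none + ∑ z ∈ K, c (some z) = k) ∧ bl (sg K) A ∈ L ∧
    ∃ k : ℤ, ∑ z ∈ A, (sg K z : ℚ) * c (some z) = k

theorem blocks_of [Nonempty X] (hC : IsCos P L c) (hP : ∀ y, P y → Strict y)
    (hF : ∑ x', c (some x') + 2 * c none = F) (h : Framed L c) : Blocks L c := by
  obtain ⟨x, y, a, b, K, haW, hax, hay, ha1, hb1, hab, hspan, hK, hk⟩ := h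
  set f : X → ℚ := fun z => (sg K z : ℚ) with hf
  have hsq : ∀ z, f z * f z = 1 := fun z => by
    have h5 : (sg K z : ℚ) * sg K z = 1 := by exact_mod_cast sg_sq K z
    exact h5
  set p : X → ℚ := fun z => a z * f z with hp
  have hp01 : ∀ z, 0 ≤ p z ∧ p z ≤ 1 := by
    intro z
    have h1 : p z + b z * f z = 1 := by
      simp only [hp]
      rw [← add_mul, hab z]
      exact hsq z
    have h2 := abs_le.1 (ha1 z)
    have h3 := abs_le.1 (hb1 z)
    simp only [hp] at h1 ⊢
    rcases sg_cases K z with h | h
    · have h4 : f z = 1 := by simp only [hf, h]; norm_num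
      rw [h4] at h1 ⊢
      constructor <;> linarith
    · have h4 : f z = -1 := by simp only [hf, h]; norm_num
      rw [h4] at h1 ⊢
      constructor <;> linarith
  have hfx : f x = 1 := by
    have h1 := (hp01 x).1
    simp only [hp, hax, one_mul] at h1
    rcases sg_cases K x with h | h
    · simp only [hf, h]; norm_num
    · have h4 : f x = -1 := by simp only [hf, h]; norm_num
      rw [h4] at h1; norm_num at h1
  have hpx : p x = 1 := by simp only [hp, hax, hfx]; norm_num
  have hpy : p y = 0 := by simp only [hp, hay]; ring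
  have hcard : (Fintype.card X : ℚ) ≠ 0 := by exact_mod_cast Fintype.card_ne_zero
  have hcard' : (0 : ℚ) < Fintype.card X := by exact_mod_cast Fintype.card_pos
  set n : ℚ := (Fintype.card X : ℚ) with hn
  -- the claim
  have claim : ∀ e : X → ℤ, Odd (∑ z, e z - F) → pr f c e = 1 →
      ¬ (0 < pr a c e ∧ pr a c e < 1) := by
    rintro e he hone ⟨h0, h1⟩
    -- it is enough to find `t`
    have fin : ∀ t : X → ℚ, (∀ z, 0 < t z) → ∑ z, t z = 1 → ∑ z, p z * t z = pr a c e → False := by
      intro t ht ht1 htp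
      refine contra hC hP hF hK hk he ht ht1 fun g hg => ?_
      obtain ⟨q, r, hqr⟩ := hspan g hg
      have ea : ∑ z, a z * (e z - sg K z * t z - c (some z)) = 0 := by
        rw [pr_split]
        have : ∑ z, a z * sg K z * t z = ∑ z, p z * t z := rfl
        rw [this, htp]; ring
      have ef : ∑ z, f z * (e z - sg K z * t z - c (some z)) = 0 := by
        rw [pr_split, hone]
        have : ∑ z, f z * sg K z * t z = ∑ z, t z := by
          refine sum_congr rfl fun z _ => ?_
          have := hsq z
          change f z * f z * t z = t z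
          rw [this, one_mul]
        rw [this, ht1]; ring
      calc ∑ z, g z * (e z - sg K z * t z - c (some z))
          = (q - r) * ∑ z, a z * (e z - sg K z * t z - c (some z)) +
            r * ∑ z, f z * (e z - sg K z * t z - c (some z)) := by
              rw [mul_sum, mul_sum, ← sum_add_distrib]
              refine sum_congr rfl fun z _ => ?_
              have h5 : b z = f z - a z := by
                have := hab z
                simp only [hf]; linarith
              rw [hqr z, h5]; ring
        _ = 0 := by rw [ea, ef]; ring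
    set μ : ℚ := (∑ z, p z) / n with hμ
    have hμ0 : 0 < μ := by
      refine div_pos ?_ hcard'
      exact sum_pos' (fun z _ => (hp01 z).1) ⟨x, mem_univ _, by rw [hpx]; norm_num⟩
    have hμ1 : μ < 1 := by
      rw [hμ, div_lt_one hcard']
      have h2 : ∑ z, p z < ∑ _z : X, (1 : ℚ) :=
        sum_lt_sum (fun z _ => (hp01 z).2) ⟨y, mem_univ _, by rw [hpy]; norm_num⟩
      rwa [sum_const, card_univ, nsmul_eq_mul, mul_one] at h2
    have hsum : ∀ (θ : ℚ) (w : X), ∑ z, ((1 - θ) / n + if z = w then θ else 0) = 1 := by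
      intro θ w
      rw [sum_add_distrib, sum_const, card_univ, nsmul_eq_mul, sum_ite_eq', if_pos (mem_univ _)]
      field_simp
      ring
    have hsump : ∀ (θ : ℚ) (w : X), ∑ z, p z * ((1 - θ) / n + if z = w then θ else 0) =
        (1 - θ) * μ + θ * p w := by
      intro θ w
      have h3 : ∀ z, p z * ((1 - θ) / n + if z = w then θ else 0) =
          (1 - θ) / n * p z + if z = w then θ * p z else 0 := by
        intro z; split_ifs <;> ring
      simp only [h3, sum_add_distrib, ← mul_sum, sum_ite_eq', mem_univ, if_true, hμ]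
      ring
    by_cases hα : μ ≤ pr a c e
    · set θ : ℚ := (pr a c e - μ) / (1 - μ) with hθ
      have hθ0 : 0 ≤ θ := div_nonneg (by linarith) (by linarith)
      have hθ1 : θ < 1 := by rw [hθ, div_lt_one (by linarith)]; linarith
      have hθe : θ * (1 - μ) = pr a c e - μ := div_mul_cancel₀ _ (by linarith)
      refine fin (fun z => (1 - θ) / n + if z = x then θ else 0) (fun z => ?_) (hsum θ x) ?_
      · have : 0 < (1 - θ) / n := div_pos (by linarith) hcard'
        split_ifs <;> linarith
      · rw [hsump, hpx]; linarith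
    · push Not at hα
      set θ : ℚ := (μ - pr a c e) / μ with hθ
      have hθ0 : 0 ≤ θ := div_nonneg (by linarith) hμ0.le
      have hθ1 : θ < 1 := by rw [hθ, div_lt_one hμ0]; linarith
      have hθe : θ * μ = μ - pr a c e := div_mul_cancel₀ _ hμ0.ne'
      refine fin (fun z => (1 - θ) / n + if z = y then θ else 0) (fun z => ?_) (hsum θ y) ?_
      · have : 0 < (1 - θ) / n := div_pos (by linarith) hcard'
        split_ifs <;> linarith
      · rw [hsump, hpy]; linarith
  have hint : ∀ e : X → ℤ, Odd (∑ z, e z - F) → pr f c e = 1 → ∃ k : ℤ, pr a c e = k := by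
    intro e he hone
    set n' : ℤ := -⌊pr a c e⌋ with hn'
    have h := claim (e + Pi.single x n' + Pi.single y (-(n' * sg K y))) (by
      rw [sum_single_add, sum_single_add]
      have : ∑ z, e z + n' + -(n' * sg K y) - F = ∑ z, e z - F + n' * (1 - sg K y) := by ring
      rw [this]
      exact he.add_even (even_sub_sg K y n')) (by
      have h5 := hsq y
      have h6 : f y = sg K y := rfl
      rw [pr_single, pr_single, hone, hfx]
      push_cast
      rw [← h6]
      linear_combination (-(n' : ℚ)) * h5)
    rw [pr_single, pr_single, hax, hay, one_mul, zero_mul, add_zero] at h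
    have h1 := Int.floor_le (pr a c e)
    have h2 := Int.lt_floor_add_one (pr a c e)
    refine ⟨⌊pr a c e⌋, ?_⟩
    by_contra h3
    apply h
    have h4 : ((n' : ℤ) : ℚ) = -(⌊pr a c e⌋ : ℤ) := by rw [hn']; push_cast; rfl
    rw [h4]
    exact ⟨by have := lt_of_le_of_ne h1 (Ne.symm h3); linarith, by linarith⟩
  obtain ⟨e, he, hone⟩ := exists_one hF hk x
  obtain ⟨k, hk1⟩ := hint e he hone
  have haz : ∀ z, ∃ j : ℤ, a z = j := by
    intro z
    obtain ⟨l, hl⟩ := hint (e + Pi.single z 1 + Pi.single x (-(1 * sg K z))) (by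
      rw [sum_single_add, sum_single_add]
      have : ∑ z, e z + 1 + -(1 * sg K z) - F = ∑ z, e z - F + 1 * (1 - sg K z) := by ring
      rw [this]
      exact he.add_even (even_sub_sg K z 1)) (by
      have h6 : f z = sg K z := rfl
      have h7 : pr (fun z => (sg K z : ℚ)) c e = 1 := hone
      rw [pr_single, pr_single, hfx]
      change pr (fun z => (sg K z : ℚ)) c e + _ + _ = 1
      rw [h7, h6]
      push_cast
      ring)
    rw [pr_single, pr_single, hk1, hax] at hl
    exact ⟨l - k + sg K z, by push_cast at hl ⊢; linarith⟩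
  have hcases : ∀ z, a z = 0 ∨ a z = sg K z := by
    intro z
    obtain ⟨j, hj⟩ := haz z
    have h1 := hp01 z
    have h2 := ha1 z
    rw [hj] at h2
    have h3 : |j| ≤ 1 := by exact_mod_cast h2
    have h4 := abs_le.1 h3
    have h5 : j = 0 ∨ j = 1 ∨ j = -1 := by omega
    simp only [hp, hf] at h1
    rcases h5 with h5 | h5 | h5
    · left; rw [hj, h5]; norm_num
    · right
      rcases sg_cases K z with h | h
      · rw [hj, h5, h]
      · rw [hj, h5, h] at h1; norm_num at h1
    · right
      rcases sg_cases K z with h | h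
      · rw [hj, h5, h] at h1; norm_num at h1
      · rw [hj, h5, h]
  have hsumA : ∀ y' : X → ℚ, ∑ z ∈ univ.filter (fun z => a z ≠ 0), (sg K z : ℚ) * y' z =
      ∑ z, a z * y' z := by
    intro y'
    rw [sum_filter]
    refine sum_congr rfl fun z _ => ?_
    rcases hcases z with h | h
    · simp [h]
    · have h0 : a z ≠ 0 := by
        rw [h]
        rcases sg_cases K z with h' | h' <;> rw [h'] <;> norm_num
      rw [if_pos h0, h]
  refine ⟨K, univ.filter fun z => a z ≠ 0, ⟨x, by rw [mem_filter, hax]; exact ⟨mem_univ _, one_ne_zero⟩⟩,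
    fun h => ?_, hK, hk, hC.mem ?_, ?_⟩
  · have : y ∈ univ.filter fun z => a z ≠ 0 := by rw [h]; exact mem_univ _
    exact (mem_filter.1 this).2 hay
  · have : rho (bl (sg K) (univ.filter fun z => a z ≠ 0)) = a := by
      funext z
      simp only [rho, bl, Option.elim, mem_filter, mem_univ, true_and]
      by_cases h : a z = 0
      · simp [h]
      · rw [if_pos h, (hcases z).resolve_left h]
        simp
    rw [this]; exact haW
  · rw [hsumA]
    choose j hj using haz
    refine ⟨∑ z, j z * e z - k, ?_⟩
    have h1 : pr a c e = ∑ z, a z * (e z : ℚ) - ∑ z, a z * c (some z) := by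
      unfold pr
      rw [← sum_sub_distrib]
      exact sum_congr rfl fun z _ => by ring
    have h3 : ∑ z, a z * (e z : ℚ) = ((∑ z, j z * e z : ℤ) : ℚ) := by
      push_cast
      exact sum_congr rfl fun z _ => by rw [hj z]
    rw [hk1, h3] at h1
    push_cast at h1 ⊢
    linarith

end Pool.Agent.Run7.h700.R2
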