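import Pool.Agent.Run7.h700.R2.Base

set_option autoImplicit false

/-!
The space of the relations between the differences, and the basic inequality.
-/

open Finset Pool.Agent.W432.TC

namespace Pool.Agent.Run7.h700.R2

variable {X : Type*} [Fintype X]

/-- The relation between the differences which is given by a relation of the torus. -/
def rho (v : Option X → ℤ) : X → ℚ := fun x => v (some x) - v none / 2

lemma rho_add (v w : Option X → ℤ) : rho (v + w) = rho v + rho w := by
  funext x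
  simp only [rho, Pi.add_apply]
  push_cast
  ring

lemma rho_smul (d : ℤ) (v : Option X → ℤ) : rho (d • v) = (d : ℚ) • rho v := by
  funext x
  simp only [rho, Pi.smul_apply, smul_eq_mul]
  push_cast
  ring

/-- The space of the relations between the differences. -/
def W (L : AddSubgroup (Option X → ℤ)) : Submodule ℚ (X → ℚ) := Submodule.span ℚ (rho '' (L : Set (Option X → ℤ)))

lemma mem_W_iff {L : AddSubgroup (Option X → ℤ)} {g : X → ℚ} (hg : g ∈ W L) :
    ∃ d : ℤ, d ≠ 0 ∧ ∃ v ∈ L, (d : ℚ) • g = rho v := by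
  induction hg using Submodule.span_induction with
  | mem x h =>
    obtain ⟨v, hv, rfl⟩ := h
    exact ⟨1, one_ne_zero, v, hv, by simp⟩
  | zero => exact ⟨1, one_ne_zero, 0, L.zero_mem, by funext x; simp [rho]⟩
  | add x y _ _ hx hy =>
    obtain ⟨d, hd, v, hv, h1⟩ := hx
    obtain ⟨e, he, w, hw, h2⟩ := hy
    refine ⟨d * e, mul_ne_zero hd he, e • v + d • w, L.add_mem (L.zsmul_mem hv _) (L.zsmul_mem hw _), ?_⟩
    rw [rho_add, rho_smul, rho_smul, ← h1, ← h2, smul_smul, smul_smul, smul_add]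
    push_cast
    rw [mul_comm (e : ℚ) d]
  | smul q x _ hx =>
    obtain ⟨d, hd, v, hv, h1⟩ := hx
    refine ⟨q.den * d, mul_ne_zero (by exact_mod_cast q.den_nz) hd, q.num • v, L.zsmul_mem hv _, ?_⟩
    rw [rho_smul, ← h1, smul_smul, smul_smul]
    congr 1
    push_cast
    have := Rat.den_mul_eq_num q
    linear_combination (d : ℚ) * this

variable {P : (Option X → ℝ) → Prop} {L : AddSubgroup (Option X → ℤ)} {c : Option X → ℚ}

/-- An integral vector whose relation is in the space `W` is in the group `L`. -/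
lemma IsCos.mem (hC : IsCos P L c) {w : Option X → ℤ} (h : rho w ∈ W L) : w ∈ L := by
  obtain ⟨d, hd, v, hv, h1⟩ := mem_W_iff h
  have h2 : (2 * d) • w ∈ L := by
    have e : (2 * d) • w = (2 : ℤ) • v + (d * w none - v none) • tau := by
      funext i
      cases i with
      | none => simp [tau]; ring
      | some x =>
        have h3 := congrFun h1 x
        simp only [rho, Pi.smul_apply, smul_eq_mul] at h3
        have h4 : ((2 * (d * w (some x)) : ℤ) : ℚ) =
            ((2 * v (some x) + (d * w none - v none) : ℤ) : ℚ) := by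
          push_cast
          linear_combination 2 * h3
        have h5 : 2 * (d * w (some x)) = 2 * v (some x) + (d * w none - v none) := by
          exact_mod_cast h4
        simp only [tau, Pi.smul_apply, Pi.add_apply, smul_eq_mul, Option.elim]
        linarith
    rw [e]
    exact L.add_mem (L.zsmul_mem hv _) (L.zsmul_mem hC.tauMem _)
  exact hC.sat _ _ (mul_ne_zero two_ne_zero hd) h2

/-- The point of the coset with given differences. -/
noncomputable def pt (c : Option X → ℚ) (d : X → ℝ) : Option X → ℝ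
  | some x => d x
  | none => c none - (∑ x, (d x - c (some x))) / 2

lemma tr_pt (c : Option X → ℚ) (d : X → ℝ) :
    tr (pt c d) = ((∑ x, c (some x) + 2 * c none : ℚ) : ℝ) := by
  unfold tr pt
  rw [sum_sub_distrib]
  push_cast
  ring

lemma pt_inCoset {d : X → ℝ} (hd : ∀ g ∈ W L, ∑ x, ((g x : ℚ) : ℝ) * (d x - c (some x)) = 0) :
    InCoset L c (pt c d) := by
  intro v hv
  refine ⟨0, ?_⟩
  have h1 := hd (rho v) (Submodule.subset_span ⟨v, hv, rfl⟩)
  rw [Fintype.sum_option]
  simp only [pt]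
  simp only [rho] at h1
  push_cast at h1 ⊢
  have h2 : ∑ x, ((v (some x) : ℝ) - v none / 2) * (d x - c (some x)) =
      ∑ x, (v (some x) : ℝ) * (d x - c (some x)) - (v none : ℝ) / 2 * ∑ x, (d x - (c (some x) : ℝ)) := by
    rw [mul_sum, ← sum_sub_distrib]
    exact sum_congr rfl fun x _ => by ring
  rw [h2] at h1
  linarith

/-- The basic inequality for the points of a coset. -/
lemma IsCos.base (hC : IsCos P L c) (hP : ∀ y, P y → Good y) {F : ℤ}
    (hF : ∑ x', c (some x') + 2 * c none = F) {d : X → ℝ}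
    (hd : ∀ g ∈ W L, ∑ x, ((g x : ℚ) : ℝ) * (d x - c (some x)) = 0) {e : X → ℤ}
    (he : Odd (∑ x, e x - F)) : 1 ≤ ∑ x, |d x - e x| :=
  hC.good hP (pt_inCoset hd) e F (by rw [tr_pt, hF]; push_cast; rfl) he

/-- The basic inequality for rational points. -/
lemma IsCos.base_rat (hC : IsCos P L c) (hP : ∀ y, P y → Good y) {F : ℤ}
    (hF : ∑ x', c (some x') + 2 * c none = F) {d : X → ℚ}
    (hd : ∀ g ∈ W L, ∑ x, g x * (d x - c (some x)) = 0) {e : X → ℤ}
    (he : Odd (∑ x, e x - F)) : 1 ≤ ∑ x, |d x - e x| := by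
  have h := hC.base hP hF (d := fun x => ((d x : ℚ) : ℝ)) (fun g hg => by
    have h1 := congrArg (fun q : ℚ => (q : ℝ)) (hd g hg)
    push_cast at h1
    exact h1) he
  have h2 : ((1 : ℚ) : ℝ) ≤ ((∑ x, |d x - e x| : ℚ) : ℝ) := by
    push_cast
    exact h
  exact_mod_cast h2

/-- A frame of a plane of vectors: two vectors with the coordinates `(1, 0)` and `(0, 1)` at `x`, `y`
and all coordinates at most one in absolute value. -/
lemma frame_two [Nonempty X] {V : Submodule ℚ (X → ℚ)} (hV : Module.finrank ℚ V = 2) :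
    ∃ (x y : X) (a b : X → ℚ), x ≠ y ∧ a ∈ V ∧ b ∈ V ∧ a x = 1 ∧ a y = 0 ∧ b x = 0 ∧ b y = 1 ∧
      (∀ z, |a z| ≤ 1) ∧ (∀ z, |b z| ≤ 1) ∧ ∀ g ∈ V, ∀ z, g z = g x * a z + g y * b z := by
  classical
  let B := Module.finBasisOfFinrankEq ℚ V hV
  set f : X → ℚ := ((B 0 : V) : X → ℚ) with hf
  set g : X → ℚ := ((B 1 : V) : X → ℚ) with hg
  have hrep : ∀ h ∈ V, ∃ p q : ℚ, ∀ z, h z = p * f z + q * g z := by
    intro h hh
    refine ⟨B.repr ⟨h, hh⟩ 0, B.repr ⟨h, hh⟩ 1, fun z => ?_⟩
    have h1 := congrArg (fun v : V => (v : X → ℚ) z) (B.sum_repr ⟨h, hh⟩)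
    simp only [Fin.sum_univ_two, Submodule.coe_add, Submodule.coe_smul, Pi.add_apply,
      Pi.smul_apply, smul_eq_mul] at h1
    exact h1.symm
  set D : X × X → ℚ := fun t => f t.1 * g t.2 - f t.2 * g t.1 with hD
  obtain ⟨⟨x, y⟩, -, hmax⟩ := exists_max_image (univ : Finset (X × X)) (fun t => |D t|)
    ⟨(Classical.arbitrary X, Classical.arbitrary X), mem_univ _⟩
  have hΔ : D (x, y) ≠ 0 := by
    intro h0
    have hall : ∀ t, D t = 0 := by
      intro t
      have h1 := hmax t (mem_univ t)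
      rw [h0, abs_zero] at h1
      exact abs_eq_zero.1 (le_antisymm h1 (abs_nonneg _))
    have hli := B.linearIndependent
    have hf0 : f ≠ 0 := by
      intro h1
      exact B.ne_zero 0 (Subtype.ext h1)
    obtain ⟨w, hw⟩ := Function.ne_iff.1 hf0
    have hw' : f w ≠ 0 := hw
    have h2 : (g w) • (B 0) + (-(f w)) • (B 1) = 0 := by
      apply Subtype.ext
      funext z
      simp only [Submodule.coe_add, Submodule.coe_smul, Pi.add_apply, Pi.smul_apply, smul_eq_mul,
        Submodule.coe_zero, Pi.zero_apply]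
      have h3 := hall (z, w)
      simp only [hD] at h3
      change g w * f z + -f w * g z = 0
      linarith
    have h3 := Fintype.linearIndependent_iff.1 hli ![g w, -(f w)] (by
      rw [Fin.sum_univ_two]
      exact h2) 1
    simp only [Matrix.cons_val_one, Matrix.cons_val_fin_one, neg_eq_zero] at h3
    exact hw' h3
  have hxy : x ≠ y := by
    rintro rfl
    exact hΔ (by simp only [hD]; ring)
  have habs : 0 < |D (x, y)| := abs_pos.2 hΔ
  refine ⟨x, y, fun z => D (z, y) / D (x, y), fun z => D (x, z) / D (x, y), hxy, ?_, ?_,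
    div_self hΔ, ?_, ?_, div_self hΔ, fun z => ?_, fun z => ?_, fun h hh z => ?_⟩
  · have : (fun z => D (z, y) / D (x, y)) = (g y / D (x, y)) • f - (f y / D (x, y)) • g := by
      funext z
      simp only [hD, Pi.sub_apply, Pi.smul_apply, smul_eq_mul]
      ring
    rw [this]
    exact V.sub_mem (V.smul_mem _ (B 0).2) (V.smul_mem _ (B 1).2)
  · have : (fun z => D (x, z) / D (x, y)) = (f x / D (x, y)) • g - (g x / D (x, y)) • f := by
      funext z
      simp only [hD, Pi.sub_apply, Pi.smul_apply, smul_eq_mul]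
      ring
    rw [this]
    exact V.sub_mem (V.smul_mem _ (B 1).2) (V.smul_mem _ (B 0).2)
  · simp only [hD]; rw [sub_self, zero_div]
  · simp only [hD]; rw [mul_comm (f x) (g x), sub_eq_zero_of_eq (by ring), zero_div]
  · rw [abs_div, div_le_one habs]
    exact hmax (z, y) (mem_univ _)
  · rw [abs_div, div_le_one habs]
    exact hmax (x, z) (mem_univ _)
  · obtain ⟨p, q, hpq⟩ := hrep h hh
    rw [hpq z, hpq x, hpq y]
    field_simp
    simp only [hD]
    ring

lemma frame_one [Nonempty X] {V : Submodule ℚ (X → ℚ)} (hV : Module.finrank ℚ V = 1) :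
    ∃ (x : X) (a : X → ℚ), a ∈ V ∧ a x = 1 ∧ (∀ z, |a z| ≤ 1) ∧
      ∀ g ∈ V, ∀ z, g z = g x * a z := by
  classical
  obtain ⟨⟨f, hfV⟩, hf0, hf⟩ := finrank_eq_one_iff'.1 hV
  obtain ⟨x, -, hmax⟩ := exists_max_image (univ : Finset X) (fun t => |f t|)
    ⟨Classical.arbitrary X, mem_univ _⟩
  have hfx : f x ≠ 0 := by
    intro h0
    apply hf0
    apply Subtype.ext
    funext z
    have h1 := hmax z (mem_univ z)
    rw [h0, abs_zero] at h1
    exact abs_eq_zero.1 (le_antisymm h1 (abs_nonneg _))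
  refine ⟨x, (f x)⁻¹ • f, V.smul_mem _ hfV, ?_, fun z => ?_, fun g hg z => ?_⟩
  · simp only [Pi.smul_apply, smul_eq_mul]
    exact inv_mul_cancel₀ hfx
  · simp only [Pi.smul_apply, smul_eq_mul]
    rw [abs_mul, abs_inv, inv_mul_le_one₀ (abs_pos.2 hfx)]
    exact hmax z (mem_univ _)
  · obtain ⟨k, hk⟩ := hf ⟨g, hg⟩
    have h1 : ∀ z, k * f z = g z := fun z => congrArg (fun v : V => (v : X → ℚ) z) hk
    rw [← h1 z, ← h1 x]
    simp only [Pi.smul_apply, smul_eq_mul]
    field_simp

/-- The lattice of the integral points with even sum has the open unit ball as fundamental domain. -/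
lemma odd_of_far {p q : ℚ} (h : ∀ n m : ℤ, Even (n + m) → 1 ≤ |p + n| + |q + m|) :
    (∃ k : ℤ, p + q = 2 * k + 1) ∨ ∃ k : ℤ, p - q = 2 * k + 1 := by
  set i : ℤ := -round ((p + q) / 2) with hi
  set j : ℤ := -round ((p - q) / 2) with hj
  have h1 := abs_sub_round ((p + q) / 2)
  have h2 := abs_sub_round ((p - q) / 2)
  have h3 := h (i + j) (i - j) ⟨i, by ring⟩
  have hi' : (i : ℚ) = -(round ((p + q) / 2) : ℤ) := by rw [hi]; push_cast; rfl
  have hj' : (j : ℚ) = -(round ((p - q) / 2) : ℤ) := by rw [hj]; push_cast; rfl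
  have e1 : |p + q + 2 * i| ≤ 1 := by
    rw [hi', show p + q + 2 * -((round ((p + q) / 2) : ℤ) : ℚ) =
      2 * ((p + q) / 2 - (round ((p + q) / 2) : ℤ)) by ring, abs_mul, abs_two]
    linarith
  have e2 : |p - q + 2 * j| ≤ 1 := by
    rw [hj', show p - q + 2 * -((round ((p - q) / 2) : ℤ) : ℚ) =
      2 * ((p - q) / 2 - (round ((p - q) / 2) : ℤ)) by ring, abs_mul, abs_two]
    linarith
  push_cast at h3
  by_contra hcon
  push Not at hcon
  obtain ⟨hc1, hc2⟩ := hcon
  have e3 : p + q + 2 * i ≠ 1 := fun h0 => hc1 (-i) (by push_cast; linarith)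
  have e4 : p + q + 2 * i ≠ -1 := fun h0 => hc1 (-i - 1) (by push_cast; linarith)
  have e5 : p - q + 2 * j ≠ 1 := fun h0 => hc2 (-j) (by push_cast; linarith)
  have e6 : p - q + 2 * j ≠ -1 := fun h0 => hc2 (-j - 1) (by push_cast; linarith)
  obtain ⟨e7, e8⟩ := abs_le.1 e1
  obtain ⟨e9, e10⟩ := abs_le.1 e2
  have f1 : p + q + 2 * i < 1 := lt_of_le_of_ne e8 e3
  have f2 : -1 < p + q + 2 * i := lt_of_le_of_ne e7 (Ne.symm e4)
  have f3 : p - q + 2 * j < 1 := lt_of_le_of_ne e10 e5
  have f4 : -1 < p - q + 2 * j := lt_of_le_of_ne e9 (Ne.symm e6)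
  rcases abs_cases (p + (i + j)) with ⟨g1, -⟩ | ⟨g1, -⟩ <;>
  rcases abs_cases (q + (i - j)) with ⟨g2, -⟩ | ⟨g2, -⟩ <;>
  rw [g1, g2] at h3 <;> linarith

end Pool.Agent.Run7.h700.R2
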