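import Pool.Agent.Run7.h700.R2.Points
import Pool.Agent.Run7.h700.PC.Coset

set_option autoImplicit false

/-!
From the weights of (semi)stable parabolic bundles of rank two to the `l¹`-distance inequalities.
-/

open Finset

namespace Pool.Agent.Run7.h700.R2

open Pool.Agent.Y227.SS Pool.Agent.R340.P3 Pool.Agent.R340.SY Pool.Agent.Run7.h700.PC

section stable

variable {K : Type*} [Field K] {m r : ℕ}

lemma semi_of_stable {x : Fin m → Fin r → ℝ} {y : Fin r → ℝ} (h : StableWeights K x y) :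
    SemistableWeights K x y := by
  obtain ⟨β, P, w, e, h1, h2, h3, h4, h5, h6, h7, -⟩ := h
  exact ⟨β, P, w, e, h1, h2, h3, h4, h5, h6, h7⟩

/-- The sum of the fractional parts, for stable bundles. -/
theorem sum_fract_ge_stable (hr : 2 ≤ r) {x : Fin m → Fin r → ℝ} {y : Fin r → ℝ}
    (hst : StableWeights K x y) (β : Option (Fin m) → ℝ) (k : ℤ) (hβ : (k : ℝ) ≤ ∑ p, β p) :
    (r : ℝ) * (k + 1 - ∑ p, β p) ≤ ∑ p, ∑ l, Int.fract (wts x y p l - β p) := by
  obtain ⟨F, hF⟩ := sum_int (semi_of_stable hst)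
  by_contra hlt
  push Not at hlt
  have hE : ∑ p, ∑ l, wts x y p l = F := by
    rw [Fintype.sum_option]
    simp only [wts, sum_neg_distrib, hF]
    ring
  set A : ℤ := ∑ p, ∑ l, ⌊wts x y p l - β p⌋ with hA
  have hfr : ∑ p, ∑ l, Int.fract (wts x y p l - β p) = F - r * ∑ p, β p - A := by
    have h1 : ∑ p, ∑ l, (wts x y p l - β p) = F - r * ∑ p, β p := by
      simp only [sum_sub_distrib, hE, sum_const, card_univ, Fintype.card_fin, nsmul_eq_mul,
        ← mul_sum]
    rw [← h1, hA]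
    push_cast
    rw [← sum_sub_distrib]
    refine sum_congr rfl fun p _ => ?_
    rw [← sum_sub_distrib]
    rfl
  rw [hfr] at hlt
  have hlt' : F - A < r * (k + 1) := by
    have h1 : ((F - A : ℤ) : ℝ) < ((r * (k + 1) : ℤ) : ℝ) := by
      push_cast
      linarith
    exact_mod_cast h1
  have e1 : ∀ (j : Fin m) (l : Fin r), ⌈β (some j) - x j l⌉ = -⌊wts x y (some j) l - β (some j)⌋ := by
    intro j l
    rw [← Int.ceil_neg]
    congr 1
    simp only [wts]
    ring
  have e2 : ∀ l : Fin r, ⌊(k : ℝ) - β none - y l⌋ = ⌊wts x y none l - β none⌋ + k := by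
    intro l
    rw [← Int.floor_add_intCast]
    congr 1
    simp only [wts]
    ring
  have h := line_ineq hr hst (fun j => β (some j)) (k - β none) F hF (by
    simp only [e1, e2, sum_add_distrib, sum_neg_distrib, sum_const, card_univ, Fintype.card_fin,
      nsmul_eq_mul, mul_one]
    rw [hA, Fintype.sum_option] at hlt'
    linarith)
  rw [Fintype.sum_option] at hβ
  linarith

end stable

section numeric

variable {Y : Type*} [Fintype Y]

/-- The differences of the two exponents at the points and the sum of the first exponents. -/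
def dv (w : Y → Fin 2 → ℝ) : Option Y → ℝ
  | some p => w p 1 - w p 0
  | none => ∑ p, w p 0

lemma tr_dv (w : Y → Fin 2 → ℝ) : tr (dv w) = ∑ p, ∑ l, w p l := by
  unfold tr dv
  simp only [Fin.sum_univ_two]
  rw [sum_sub_distrib, sum_add_distrib]
  ring

lemma arc_le (a b : ℝ) (e : ℤ) : Int.fract (a - min a (b - e)) + Int.fract (b - min a (b - e)) ≤
    |b - a - e| := by
  rcases le_total a (b - e) with h | h
  · rw [min_eq_left h, sub_self, Int.fract_zero, zero_add, abs_of_nonneg (by linarith)]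
    have h1 : b - a = (b - a - e) + (e : ℤ) := by ring
    rw [h1, Int.fract_add_intCast]
    have h0 : 0 ≤ b - a - e := by linarith
    have h2 : (0 : ℤ) ≤ ⌊b - a - e⌋ := Int.floor_nonneg.2 h0
    have h3 := Int.floor_add_fract (b - a - e)
    have h4 : (0 : ℝ) ≤ ((⌊b - a - e⌋ : ℤ) : ℝ) := by exact_mod_cast h2
    linarith
  · rw [min_eq_right h, abs_of_nonpos (by linarith)]
    have h1 : b - (b - e) = (e : ℝ) := by ring
    rw [h1, Int.fract_intCast, add_zero]
    have h0 : 0 ≤ a - (b - e) := by linarith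
    have h2 : (0 : ℤ) ≤ ⌊a - (b - e)⌋ := Int.floor_nonneg.2 h0
    have h3 := Int.floor_add_fract (a - (b - e))
    have h4 : (0 : ℝ) ≤ ((⌊a - (b - e)⌋ : ℤ) : ℝ) := by exact_mod_cast h2
    linarith

lemma min_eq' (a b : ℝ) : min a b = (a + b - |b - a|) / 2 := by
  rcases le_total a b with h | h
  · rw [min_eq_left h, abs_of_nonneg (by linarith)]; ring
  · rw [min_eq_right h, abs_of_nonpos (by linarith)]; ring

lemma arc_data (w : Y → Fin 2 → ℝ) (e : Y → ℤ) (F : ℤ) (hF : tr (dv w) = F)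
    (hodd : Odd (∑ x, e x - F)) : ∃ k : ℤ,
    ∑ p, min (w p 0) (w p 1 - e p) = k + (1 - ∑ p, |dv w (some p) - e p|) / 2 ∧
    ∑ p, ∑ l, Int.fract (w p l - min (w p 0) (w p 1 - e p)) ≤ ∑ p, |dv w (some p) - e p| := by
  obtain ⟨t, ht⟩ := hodd
  refine ⟨-t - 1, ?_, ?_⟩
  · have h1 : ∑ p, min (w p 0) (w p 1 - e p) =
        (∑ p, ∑ l, w p l - ((∑ p, e p : ℤ) : ℝ) - ∑ p, |dv w (some p) - e p|) / 2 := by
      push_cast
      rw [← sum_sub_distrib, ← sum_sub_distrib, sum_div]
      refine sum_congr rfl fun p _ => ?_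
      rw [min_eq', Fin.sum_univ_two]
      have h2 : w p 1 - e p - w p 0 = dv w (some p) - e p := by simp only [dv]; ring
      rw [h2]
      ring
    rw [h1, ← tr_dv, hF]
    have h3 : ((∑ p, e p : ℤ) : ℝ) = F + (2 * t + 1) := by
      have h4 : ∑ p, e p = F + (2 * t + 1) := by linarith
      rw [h4]; push_cast; ring
    rw [h3]
    push_cast
    ring
  · refine sum_le_sum fun p _ => ?_
    rw [Fin.sum_univ_two]
    exact arc_le _ _ _

lemma good_of {w : Y → Fin 2 → ℝ}
    (h : ∀ (β : Y → ℝ) (k : ℤ), (k : ℝ) < ∑ p, β p →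
      (2 : ℝ) * (k + 1 - ∑ p, β p) ≤ ∑ p, ∑ l, Int.fract (w p l - β p)) : Good (dv w) := by
  intro e F hF hodd
  by_contra hlt
  push Not at hlt
  obtain ⟨k, hk, hle⟩ := arc_data w e F hF hodd
  have h1 := h _ k (by rw [hk]; linarith)
  rw [hk] at h1
  linarith

lemma strict_of {w : Y → Fin 2 → ℝ}
    (h : ∀ (β : Y → ℝ) (k : ℤ), (k : ℝ) ≤ ∑ p, β p →
      (2 : ℝ) * (k + 1 - ∑ p, β p) ≤ ∑ p, ∑ l, Int.fract (w p l - β p)) : Strict (dv w) := by
  intro e F hF hodd
  by_contra hlt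
  push Not at hlt
  obtain ⟨k, hk, hle⟩ := arc_data w e F hF hodd
  have h1 := h _ k (by rw [hk]; linarith)
  rw [hk] at h1
  linarith

/-- The restriction to the points outside of which the differences are integers. -/
def restr (y : Option Y → ℝ) (T : Finset Y) : Option {p // p ∈ T} → ℝ
  | some p => y (some p.1)
  | none => y none

lemma sum_restr [DecidableEq Y] {A : Type*} [AddCommMonoid A] (T : Finset Y) (f : Y → A) :
    ∑ p, f p = ∑ p : {p // p ∈ T}, f p.1 + ∑ p ∈ Tᶜ, f p := by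
  rw [← sum_add_sum_compl T f]
  congr 1
  exact (sum_coe_sort T f).symm

lemma restr_data [DecidableEq Y] {y : Option Y → ℝ} {T : Finset Y}
    (hT : ∀ p, p ∉ T → ∃ k : ℤ, y (some p) = k) (e : {p // p ∈ T} → ℤ) (F : ℤ)
    (hF : tr (restr y T) = F) (hodd : Odd (∑ x, e x - F)) :
    ∃ (e' : Y → ℤ) (F' : ℤ), tr y = F' ∧ Odd (∑ x, e' x - F') ∧
      ∑ x, |y (some x) - e' x| = ∑ x, |restr y T (some x) - e x| := by
  choose! g hg using hT
  refine ⟨fun p => if h : p ∈ T then e ⟨p, h⟩ else g p, F + ∑ p ∈ Tᶜ, g p, ?_, ?_, ?_⟩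
  · rw [tr, sum_restr T]
    have h1 : ∑ p ∈ Tᶜ, y (some p) = ((∑ p ∈ Tᶜ, g p : ℤ) : ℝ) := by
      push_cast
      exact sum_congr rfl fun p hp => hg p (mem_compl.1 hp)
    rw [h1]
    have h2 : ∑ p : {p // p ∈ T}, y (some p.1) + 2 * y none = F := hF
    push_cast at h2 ⊢
    linarith
  · rw [sum_restr T]
    have h1 : ∑ p : {p // p ∈ T}, (if h : p.1 ∈ T then e ⟨p.1, h⟩ else g p.1) = ∑ p, e p :=
      sum_congr rfl fun p _ => by rw [dif_pos p.2]
    have h2 : ∑ p ∈ Tᶜ, (if h : p ∈ T then e ⟨p, h⟩ else g p) = ∑ p ∈ Tᶜ, g p :=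
      sum_congr rfl fun p hp => dif_neg (mem_compl.1 hp)
    rw [h1, h2]
    have h3 : ∑ p, e p + ∑ p ∈ Tᶜ, g p - (F + ∑ p ∈ Tᶜ, g p) = ∑ p, e p - F := by ring
    rw [h3]
    exact hodd
  · rw [sum_restr T]
    have h2 : ∑ p ∈ Tᶜ, |y (some p) - ((if h : p ∈ T then e ⟨p, h⟩ else g p : ℤ) : ℝ)| = 0 := by
      refine sum_eq_zero fun p hp => ?_
      rw [dif_neg (mem_compl.1 hp), hg p (mem_compl.1 hp), sub_self, abs_zero]
    rw [h2, add_zero]
    refine sum_congr rfl fun p _ => ?_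
    have h3 : (if h : p.1 ∈ T then e ⟨p.1, h⟩ else g p.1) = e p := dif_pos p.2
    simp only [h3]
    rfl

lemma Good.restr {y : Option Y → ℝ} (hy : Good y) {T : Finset Y}
    (hT : ∀ p, p ∉ T → ∃ k : ℤ, y (some p) = k) : Good (restr y T) := by
  classical
  intro e F hF hodd
  obtain ⟨e', F', h1, h2, h3⟩ := restr_data hT e F hF hodd
  rw [← h3]
  exact hy e' F' h1 h2

lemma Strict.restr {y : Option Y → ℝ} (hy : Strict y) {T : Finset Y}
    (hT : ∀ p, p ∉ T → ∃ k : ℤ, y (some p) = k) : Strict (restr y T) := by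
  classical
  intro e F hF hodd
  obtain ⟨e', F', h1, h2, h3⟩ := restr_data hT e F hF hodd
  rw [← h3]
  exact hy e' F' h1 h2

end numeric

section conj

variable {X : Type*} [Fintype X]

lemma AllConj.mk' {P : (Option X → ℝ) → Prop}
    (hP : ∀ y, P y → ∀ z : Option X → ℤ, P fun i => y i - z i) {x : Option X → ℚ} {N : ℕ}
    (hN : 0 < N) (h : ∀ a : ℤ, IsCoprime a (N : ℤ) → P fun i => (a : ℝ) * x i) : AllConj P x := by
  intro N' hN' hx' a ha
  set L : ℕ := ∏ i, (x i).den with hL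
  have hLpos : 0 < L := prod_den_pos x
  have haL := coprime_den_of hN' hx' ha
  obtain ⟨a', ha', e, he⟩ := lift_unit (q := L) (N := L * N) (Nat.mul_pos hLpos hN)
    (dvd_mul_right _ _) a haL
  have ha'N : IsCoprime a' (N : ℤ) := IsCoprime.of_isCoprime_of_dvd_right ha' (by
    push_cast; exact dvd_mul_left _ _)
  have hcongr : ∀ i, ∃ z : ℤ, (a : ℝ) * x i = (a' : ℝ) * x i - z := by
    intro i
    obtain ⟨w, hw⟩ := prod_den_int x i
    refine ⟨e * w, ?_⟩
    have h1 : (a' : ℚ) * x i = (a : ℚ) * x i + ((e * w : ℤ) : ℚ) := by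
      have h2 : (a' : ℚ) - a = L * e := by exact_mod_cast he
      push_cast
      rw [← hw, ← hL]
      linear_combination x i * h2
    have h3 := congrArg (fun q : ℚ => (q : ℝ)) h1
    push_cast at h3 ⊢
    linarith
  choose z hz using hcongr
  have h4 := hP _ (h a' ha'N) z
  have h5 : (fun i => (a : ℝ) * x i) = fun i => (a' : ℝ) * x i - z i := funext hz
  rw [h5]
  exact h4

end conj

end Pool.Agent.Run7.h700.R2
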