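import Pool.Agent.Run7.h700.R2.Fin

set_option autoImplicit false

/-!
The classification of the points all whose conjugates satisfy the inequalities, up to three relations.
-/

open Finset Pool.Agent.W432.TC

namespace Pool.Agent.Run7.h700.R2

variable {X : Type*} [Fintype X] [DecidableEq X]

/-- Some sum of exponents, one at each point, is an integer. -/
def SumRel (x : Option X → ℚ) : Prop :=
  ∃ K : Finset X, ∃ k : ℤ, x none + ∑ z ∈ K, x (some z) = k

/-- Some sum of exponents, one at each point, is an integer, and so is the sum of the differences of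
the exponents in the sum and the other exponents, over the points in a proper nonempty subset. -/
def BlockRel (x : Option X → ℚ) : Prop :=
  ∃ K A : Finset X, A.Nonempty ∧ A ≠ univ ∧ (∃ k : ℤ, x none + ∑ z ∈ K, x (some z) = k) ∧
    ∃ k : ℤ, ∑ z ∈ A, (sg K z : ℚ) * x (some z) = k

/-- The sums of the differences, with suitable signs, over two disjoint nonempty sets, which do not
contain all the points, are half odd integers. -/
def HalfRel (x : Option X → ℚ) : Prop :=
  ∃ (σ : X → ℤ) (A B : Finset X), (∀ z, σ z = 1 ∨ σ z = -1) ∧ A.Nonempty ∧ B.Nonempty ∧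
    Disjoint A B ∧ A ∪ B ≠ univ ∧
    (∃ k : ℤ, ∑ z ∈ A, (σ z : ℚ) * x (some z) = k + 1 / 2) ∧
    ∃ k : ℤ, ∑ z ∈ B, (σ z : ℚ) * x (some z) = k + 1 / 2

/-- The differences satisfy three linearly independent relations modulo the integers, with integral
coefficients of absolute value at most `M`. -/
def ThreeRel (M : ℕ) (x : Option X → ℚ) : Prop :=
  ∃ g : Fin 3 → X → ℤ, LinearIndependent ℚ (fun j z => (g j z : ℚ)) ∧ (∀ j z, |g j z| ≤ M) ∧
    ∀ j, ∃ k : ℤ, ∑ z, (g j z : ℚ) * x (some z) = k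

omit [DecidableEq X] in
lemma ThreeRel.mono {M M' : ℕ} (h : M ≤ M') {x : Option X → ℚ} (hx : ThreeRel M x) : ThreeRel M' x := by
  obtain ⟨g, h1, h2, h3⟩ := hx
  exact ⟨g, h1, fun j z => (h2 j z).trans (by exact_mod_cast h), h3⟩

variable {P : (Option X → ℝ) → Prop} {L : AddSubgroup (Option X → ℤ)} {c : Option X → ℚ} {F : ℤ}

lemma kap_sum_rat (K : Finset X) (y : Option X → ℚ) :
    ∑ i, (kap K i : ℚ) * y i = y none + ∑ z ∈ K, y (some z) := by
  rw [Fintype.sum_option]
  simp only [kap, Option.elim]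
  push_cast
  rw [one_mul]
  congr 1
  have h3 : ∑ z ∈ K, y (some z) = ∑ z, if z ∈ K then y (some z) else 0 := by
    rw [← sum_filter]; simp
  rw [h3]
  refine sum_congr rfl fun z _ => ?_
  split_ifs <;> simp

lemma bl_sum_rat (σ : X → ℤ) (A : Finset X) (y : Option X → ℚ) :
    ∑ i, (bl σ A i : ℚ) * y i = ∑ z ∈ A, (σ z : ℚ) * y (some z) := by
  rw [Fintype.sum_option]
  simp only [bl, Option.elim]
  push_cast
  rw [zero_mul, zero_add]
  have h3 : ∑ z ∈ A, (σ z : ℚ) * y (some z) = ∑ z, if z ∈ A then (σ z : ℚ) * y (some z) else 0 := by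
    rw [← sum_filter]; simp
  rw [h3]
  refine sum_congr rfl fun z _ => ?_
  split_ifs <;> simp

lemma rel_transfer {x : Option X → ℚ} (hx : InCoset L c (fun i => (x i : ℝ))) {v : Option X → ℤ}
    (hv : v ∈ L) : ∃ w : ℤ, ∑ i, (v i : ℚ) * x i = ∑ i, (v i : ℚ) * c i + w := by
  obtain ⟨w, hw⟩ := inCoset_rat.1 hx v hv
  refine ⟨w, ?_⟩
  rw [← hw, ← sum_add_distrib]
  exact sum_congr rfl fun i _ => by ring

lemma three_of (h : 3 ≤ Module.finrank ℚ (W L)) :
    ∃ v : Fin 3 → Option X → ℤ, (∀ j, v j ∈ L) ∧ LinearIndependent ℚ (fun j => rho (v j)) := by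
  classical
  obtain ⟨b, hb, hspan, hli⟩ := exists_linearIndependent ℚ (rho '' (L : Set (Option X → ℤ)))
  have hfin : b.Finite := hli.setFinite
  have : Fintype b := hfin.fintype
  have hcard : Fintype.card b = Module.finrank ℚ (W L) := by
    have h1 := finrank_span_set_eq_card hli
    rw [hspan] at h1
    rw [← Set.toFinset_card]
    exact h1.symm
  obtain ⟨f⟩ : Nonempty (Fin 3 ↪ b) := by
    refine Function.Embedding.nonempty_of_card_le ?_
    rw [Fintype.card_fin, hcard]
    exact h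
  have hmem : ∀ j, ∃ v ∈ L, rho v = ((f j : b) : X → ℚ) := fun j => hb (f j).2
  choose v hv hv' using hmem
  refine ⟨v, hv, ?_⟩
  have h2 := hli.comp f f.injective
  have h3 : (fun j => rho (v j)) = (Subtype.val ∘ f : Fin 3 → X → ℚ) := by
    funext j
    rw [hv' j]; rfl
  rw [h3]
  exact h2

lemma three_bound (hC : IsCos P L c) (h : 3 ≤ Module.finrank ℚ (W L)) :
    ∃ M : ℕ, ∀ x : Option X → ℚ, (∃ F : ℤ, ∑ x', x (some x') + 2 * x none = F) →
      InCoset L c (fun i => (x i : ℝ)) → ThreeRel M x := by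
  obtain ⟨v, hv, hli⟩ := three_of h
  obtain ⟨D, hD, hDc⟩ := exists_commonDen c
  set g : Fin 3 → X → ℤ := fun j z => D * (2 * v j (some z) - v j none) with hg
  have hgr : ∀ j, (fun z => (g j z : ℚ)) = (2 * D : ℚ) • rho (v j) := by
    intro j
    funext z
    simp only [hg, rho, Pi.smul_apply, smul_eq_mul]
    push_cast
    ring
  have hD0 : (2 * D : ℚ) ≠ 0 := by positivity
  refine ⟨∑ j, ∑ z, (g j z).natAbs, fun x hF hx => ⟨g, ?_, fun j z => ?_, fun j => ?_⟩⟩
  · have h1 : (fun j z => (g j z : ℚ)) = fun j => (2 * D : ℚ) • rho (v j) := by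
      funext j
      exact hgr j
    rw [h1]
    have := hli.units_smul (fun _ => Units.mk0 (2 * D : ℚ) hD0)
    exact this
  · have h1 : (g j z).natAbs ≤ ∑ j, ∑ z, (g j z).natAbs :=
      (single_le_sum (f := fun z => (g j z).natAbs) (fun _ _ => Nat.zero_le _) (mem_univ z)).trans
        (single_le_sum (f := fun j => ∑ z, (g j z).natAbs) (fun _ _ => Nat.zero_le _) (mem_univ j))
    rw [Int.abs_eq_natAbs]
    exact_mod_cast h1
  · obtain ⟨F, hF⟩ := hF
    obtain ⟨w, hw⟩ := rel_transfer hx (hv j)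
    choose u hu using hDc
    refine ⟨2 * (∑ i, v j i * u i + D * w) - D * v j none * F, ?_⟩
    have h1 : ∑ z, (g j z : ℚ) * x (some z) =
        D * (2 * ∑ i, (v j i : ℚ) * x i - v j none * (∑ x', x (some x') + 2 * x none)) := by
      rw [Fintype.sum_option]
      have h2 : ∑ z, (g j z : ℚ) * x (some z) =
          D * (2 * ∑ z, (v j (some z) : ℚ) * x (some z) - v j none * ∑ z, x (some z)) := by
        rw [mul_sum, mul_sum, ← sum_sub_distrib, mul_sum]
        refine sum_congr rfl fun z _ => ?_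
        simp only [hg]
        push_cast
        ring
      rw [h2]; ring
    have h3 : (D : ℚ) * ∑ i, (v j i : ℚ) * c i = ((∑ i, v j i * u i : ℤ) : ℚ) := by
      rw [mul_sum]
      push_cast
      refine sum_congr rfl fun i _ => ?_
      rw [← hu i]; ring
    rw [h1, hw, hF]
    push_cast at h3 ⊢
    linear_combination 2 * h3

/-- **The points all whose conjugates satisfy the weak inequalities.** -/
theorem points_semi [Nonempty X] : ∃ M : ℕ, ∀ x ∈ Pts (Good (X := X)),
    SumRel x ∨ HalfRel x ∨ ThreeRel M x := by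
  classical
  obtain ⟨𝒟, h𝒟, hcov⟩ := exists_cosets (X := X) Good fun y hy z => hy.shift z
  have hM : ∀ C ∈ 𝒟, ∃ M : ℕ, ∀ x ∈ Pts (Good (X := X)), InCoset C.1 C.2 (fun i => (x i : ℝ)) →
      SumRel x ∨ HalfRel x ∨ ThreeRel M x := by
    intro C hC
    have hcos := h𝒟 C hC
    obtain ⟨F, hF⟩ := hcos.trc
    rcases Nat.lt_or_ge (Module.finrank ℚ (W C.1)) 3 with h | h
    · refine ⟨0, fun x hx hxC => ?_⟩
      have hsum : ∀ K : Finset X, kap K ∈ C.1 → (∃ k : ℤ, C.2 none + ∑ z ∈ K, C.2 (some z) = k) →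
          SumRel x := by
        rintro K hK ⟨k, hk⟩
        obtain ⟨w, hw⟩ := rel_transfer hxC hK
        rw [kap_sum_rat, kap_sum_rat, hk] at hw
        exact ⟨K, k + w, by rw [hw]; push_cast; ring⟩
      interval_cases hr : Module.finrank ℚ (W C.1)
      · exact (class_zero hcos (fun _ h => h) hF hr).elim
      · obtain ⟨K, -, hK, hk⟩ := class_one hcos (fun _ h => h) hF hr
        exact Or.inl (hsum K hK hk)
      · rcases class_two hcos (fun _ h => h) hF hr with h1 | h1
        · obtain ⟨-, -, -, -, K, -, -, -, -, -, -, -, hK, hk⟩ := h1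
          exact Or.inl (hsum K hK hk)
        · obtain ⟨σ, A, B, hσ, hA, hB, hAB, hU, hLA, hLB, ⟨k, hk⟩, ⟨l, hl⟩⟩ := h1
          refine Or.inr (Or.inl ⟨σ, A, B, hσ, hA, hB, hAB, hU, ?_, ?_⟩)
          · obtain ⟨w, hw⟩ := rel_transfer hxC hLA
            rw [bl_sum_rat, bl_sum_rat, hk] at hw
            exact ⟨k + w, by rw [hw]; push_cast; ring⟩
          · obtain ⟨w, hw⟩ := rel_transfer hxC hLB
            rw [bl_sum_rat, bl_sum_rat, hl] at hw
            exact ⟨l + w, by rw [hw]; push_cast; ring⟩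
    · obtain ⟨M, hM⟩ := three_bound hcos h
      exact ⟨M, fun x hx hxC => Or.inr (Or.inr (hM x hx.1 hxC))⟩
  choose! M hM using hM
  refine ⟨∑ C ∈ 𝒟, M C, fun x hx => ?_⟩
  obtain ⟨C, hC, hxC⟩ := hcov x hx
  rcases hM C hC x hx hxC with h | h | h
  · exact Or.inl h
  · exact Or.inr (Or.inl h)
  · exact Or.inr (Or.inr (h.mono (single_le_sum (f := M) (fun _ _ => Nat.zero_le _) hC)))

/-- **The points all whose conjugates satisfy the strict inequalities.** -/
theorem points_strict [Nonempty X] : ∃ M : ℕ, ∀ x ∈ Pts (Strict (X := X)),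
    BlockRel x ∨ HalfRel x ∨ ThreeRel M x := by
  classical
  obtain ⟨𝒟, h𝒟, hcov⟩ := exists_cosets (X := X) Strict fun y hy z => hy.shift z
  have hM : ∀ C ∈ 𝒟, ∃ M : ℕ, ∀ x ∈ Pts (Strict (X := X)), InCoset C.1 C.2 (fun i => (x i : ℝ)) →
      BlockRel x ∨ HalfRel x ∨ ThreeRel M x := by
    intro C hC
    have hcos := h𝒟 C hC
    obtain ⟨F, hF⟩ := hcos.trc
    rcases Nat.lt_or_ge (Module.finrank ℚ (W C.1)) 3 with h | h
    · refine ⟨0, fun x hx hxC => ?_⟩
      interval_cases hr : Module.finrank ℚ (W C.1)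
      · exact (class_zero hcos (fun _ h => h.good) hF hr).elim
      · exact (single_false hcos (fun _ h => h) hF (class_one hcos (fun _ h => h.good) hF hr)).elim
      · rcases class_two hcos (fun _ h => h.good) hF hr with h1 | h1
        · obtain ⟨K, A, hA, hAu, hK, ⟨k, hk⟩, hbl, ⟨l, hl⟩⟩ := blocks_of hcos (fun _ h => h) hF h1
          refine Or.inl ⟨K, A, hA, hAu, ?_, ?_⟩
          · obtain ⟨w, hw⟩ := rel_transfer hxC hK
            rw [kap_sum_rat, kap_sum_rat, hk] at hw
            exact ⟨k + w, by rw [hw]; push_cast; ring⟩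
          · obtain ⟨w, hw⟩ := rel_transfer hxC hbl
            rw [bl_sum_rat, bl_sum_rat, hl] at hw
            exact ⟨l + w, by rw [hw]; push_cast; ring⟩
        · obtain ⟨σ, A, B, hσ, hA, hB, hAB, hU, hLA, hLB, ⟨k, hk⟩, ⟨l, hl⟩⟩ := h1
          refine Or.inr (Or.inl ⟨σ, A, B, hσ, hA, hB, hAB, hU, ?_, ?_⟩)
          · obtain ⟨w, hw⟩ := rel_transfer hxC hLA
            rw [bl_sum_rat, bl_sum_rat, hk] at hw
            exact ⟨k + w, by rw [hw]; push_cast; ring⟩
          · obtain ⟨w, hw⟩ := rel_transfer hxC hLB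
            rw [bl_sum_rat, bl_sum_rat, hl] at hw
            exact ⟨l + w, by rw [hw]; push_cast; ring⟩
    · obtain ⟨M, hM⟩ := three_bound hcos h
      exact ⟨M, fun x hx hxC => Or.inr (Or.inr (hM x hx.1 hxC))⟩
  choose! M hM using hM
  refine ⟨∑ C ∈ 𝒟, M C, fun x hx => ?_⟩
  obtain ⟨C, hC, hxC⟩ := hcov x hx
  rcases hM C hC x hx hxC with h | h | h
  · exact Or.inl h
  · exact Or.inr (Or.inl h)
  · exact Or.inr (Or.inr (h.mono (single_le_sum (f := M) (fun _ _ => Nat.zero_le _) hC)))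

end Pool.Agent.Run7.h700.R2
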