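import Pool.Agent.Run7.h700.R2.Expo
import Pool.Agent.Y227.SS.Uniform

set_option autoImplicit false

/-!
Irreducible systems of rank two: a positive proportion of bad classes, or exceptional exponents.
-/

open Finset

namespace Pool.Agent.Run7.h700.R2

open Pool.Agent.Y227.SS Pool.Agent.R340.P3 Pool.Agent.R340.SY Pool.Agent.Run7.h700.PC
open Pool.Agent.W432.PC

universe u

theorem sys_two (n : ℕ) : ∃ (ε : ℝ) (M : ℕ), 0 < ε ∧
    ∀ (R : Type u) [CommRing R] [IsDomain R] [CharZero R] [Algebra.FiniteType ℤ R]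
    (α : Fin n → R) (A : Fin n → Matrix (Fin 2) (Fin 2) R)
    (lam : Fin n → Fin 2 → ℚ) (phi : Fin 2 → ℚ) (N : ℕ),
    (∀ i j, i ≠ j → IsUnit (α i - α j)) →
    (∀ j, HasExponents (A j) (lam j)) → HasExponents (∑ j, A j) phi →
    0 < N → (∀ j l, ∃ m : ℤ, (N : ℚ) * lam j l = m) → (∀ l, ∃ m : ℤ, (N : ℚ) * phi l = m) →
    AbsIrreducible α A →
    (TwoBlocks (expo lam phi) ∨ TwoHalves (expo lam phi) ∨ ThreeRelations (expo lam phi) M) ∨
      ((∃ g : R, g ≠ 0 ∧ BadClasses α A N ε g) ∧ ¬ CondII α A) := by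
  obtain ⟨ε, 𝒟, hε, -, h⟩ := uniform.{u} n 2
  obtain ⟨M, hM⟩ := stable_class n
  refine ⟨ε, M, hε, ?_⟩
  intro R _ _ _ _ α A lam phi N hα hlam hphi hN hN1 hN2 hirr
  rcases (h R α A lam phi N hα hlam hphi hN hN1 hN2).2 hirr with h1 | h1
  · exact Or.inl (hM lam phi N hN h1)
  · exact Or.inr h1

end Pool.Agent.Run7.h700.R2
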